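import Pool.Agent.H697Z.GssDefs

set_option autoImplicit false

universe u

namespace Pool.Agent.H697Z.Gss

open ZFSet Order

abbrev V : Type (u + 1) := ZFSet.{u}

@[simp] theorem cons_zero (z : V.{u}) (v : ℕ → V.{u}) : cons z v 0 = z := rfl
@[simp] theorem cons_succ (z : V.{u}) (v : ℕ → V.{u}) (n : ℕ) : cons z v (n + 1) = v n := rfl

/-- a new first entry, for any type -/
def sc {α : Type*} (z : α) (v : ℕ → α) : ℕ → α
  | 0 => z
  | n + 1 => v n

@[simp] theorem sc_zero {α : Type*} (z : α) (v : ℕ → α) : sc z v 0 = z := rfl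
@[simp] theorem sc_succ {α : Type*} (z : α) (v : ℕ → α) (n : ℕ) : sc z v (n + 1) = v n := rfl

theorem cons_comp {α : Type*} (f : α → V.{u}) (z : α) (v : ℕ → α) :
    (fun i => f (sc z v i)) = cons (f z) (fun i => f (v i)) := by
  funext i; cases i <;> rfl

theorem cons_map (f : V.{u} → V.{u}) (z : V.{u}) (v : ℕ → V.{u}) :
    (fun i => f (cons z v i)) = cons (f z) (fun i => f (v i)) := by
  funext i; cases i <;> rfl

/-- transitive classes -/
def Tr (M : Set V.{u}) : Prop := ∀ x ∈ M, ∀ y ∈ x, y ∈ M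

theorem tr_coe {M : V.{u}} : Tr (M : Set V.{u}) ↔ M.IsTransitive :=
  ⟨fun h x hx y hy => h x hx y hy, fun h x hx _ hy => h x hx hy⟩

theorem tr_univ : Tr (Set.univ : Set V.{u}) := fun _ _ _ _ => trivial

theorem tr_vn (o : Ordinal.{u}) : Tr (vonNeumann o : Set V.{u}) :=
  tr_coe.2 (isTransitive_vonNeumann o)

def Good (M : Set V.{u}) (v : ℕ → V.{u}) : Prop := ∀ i, v i ∈ M

theorem Good.cons {M : Set V.{u}} {v : ℕ → V.{u}} (h : Good M v) {z : V.{u}} (hz : z ∈ M) :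
    Good M (cons z v) := fun i => by
  cases i with
  | zero => exact hz
  | succ i => exact h i

def Fm.ren : Fm → (ℕ → ℕ) → Fm
  | .mem i j, f => .mem (f i) (f j)
  | .eq i j, f => .eq (f i) (f j)
  | .neg φ, f => .neg (φ.ren f)
  | .and φ ψ, f => .and (φ.ren f) (ψ.ren f)
  | .ex φ, f => .ex (φ.ren (sc 0 fun i => f i + 1))

theorem sat_ren (M : Set V.{u}) (φ : Fm) : ∀ (f : ℕ → ℕ) (v : ℕ → V.{u}),
    Sat M (φ.ren f) v ↔ Sat M φ (fun i => v (f i)) := by
  induction φ with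
  | mem i j => intro f v; rfl
  | eq i j => intro f v; rfl
  | neg φ ih => intro f v; simp only [Fm.ren, Sat, ih]
  | and φ ψ ih ih' => intro f v; simp only [Fm.ren, Sat, ih, ih']
  | ex φ ih =>
    intro f v
    simp only [Fm.ren, Sat, ih]
    refine exists_congr fun z => and_congr_right fun _ => ?_
    rw [cons_comp (cons z v)]
    rfl

/-- a bound for the free variables -/
def Fm.fv : Fm → ℕ
  | .mem i j => max i j + 1
  | .eq i j => max i j + 1
  | .neg φ => φ.fv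
  | .and φ ψ => max φ.fv ψ.fv
  | .ex φ => φ.fv - 1

theorem sat_congr (M : Set V.{u}) (φ : Fm) : ∀ (v w : ℕ → V.{u}), (∀ i < φ.fv, v i = w i) →
    (Sat M φ v ↔ Sat M φ w) := by
  induction φ with
  | mem i j =>
    intro v w h
    simp only [Sat]
    rw [h i (by simp only [Fm.fv]; omega), h j (by simp only [Fm.fv]; omega)]
  | eq i j =>
    intro v w h
    simp only [Sat]
    rw [h i (by simp only [Fm.fv]; omega), h j (by simp only [Fm.fv]; omega)]
  | neg φ ih => intro v w h; simp only [Sat]; rw [ih v w h]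
  | and φ ψ ih ih' =>
    intro v w h
    simp only [Sat]
    rw [ih v w fun i hi => h i (by simp only [Fm.fv]; omega),
      ih' v w fun i hi => h i (by simp only [Fm.fv]; omega)]
  | ex φ ih =>
    intro v w h
    simp only [Sat]
    refine exists_congr fun z => and_congr_right fun _ => ih _ _ fun i hi => ?_
    cases i with
    | zero => rfl
    | succ i => exact h i (by simp only [Fm.fv]; omega)

def Fm.enc : Fm → ℕ
  | .mem i j => Nat.pair 0 (Nat.pair i j)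
  | .eq i j => Nat.pair 1 (Nat.pair i j)
  | .neg φ => Nat.pair 3 φ.enc
  | .and φ ψ => Nat.pair 4 (Nat.pair φ.enc ψ.enc)
  | .ex φ => Nat.pair 5 φ.enc

theorem Fm.enc_inj : ∀ φ ψ : Fm, φ.enc = ψ.enc → φ = ψ := by
  intro φ
  induction φ with
  | mem i j => intro ψ h; cases ψ <;> simp_all [Fm.enc, Nat.pair_eq_pair]
  | eq i j => intro ψ h; cases ψ <;> simp_all [Fm.enc, Nat.pair_eq_pair]
  | neg φ ih =>
    intro ψ h
    cases ψ <;> simp [Fm.enc, Nat.pair_eq_pair] at h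
    rw [ih _ h]
  | and φ φ' ih ih' =>
    intro ψ h
    cases ψ <;> simp [Fm.enc, Nat.pair_eq_pair] at h
    rw [ih _ h.1, ih' _ h.2]
  | ex φ ih =>
    intro ψ h
    cases ψ <;> simp [Fm.enc, Nat.pair_eq_pair] at h
    rw [ih _ h]

instance : Countable Fm := ⟨⟨Fm.enc, fun _ _ h => Fm.enc_inj _ _ h⟩⟩

/-- predicates which are uniformly definable over all transitive classes -/
def D (Q : Set V.{u} → (ℕ → V.{u}) → Prop) : Prop :=
  ∃ φ : Fm, ∀ M v, Tr M → Good M v → (Sat M φ v ↔ Q M v)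

variable {Q Q' : Set V.{u} → (ℕ → V.{u}) → Prop}

theorem D.congr (h : D Q) (h' : ∀ M v, Tr M → Good M v → (Q M v ↔ Q' M v)) : D Q' := by
  obtain ⟨φ, h⟩ := h
  exact ⟨φ, fun M v hM hv => (h M v hM hv).trans (h' M v hM hv)⟩

theorem D.sat (φ : Fm) (f : ℕ → ℕ) : D fun (M : Set V.{u}) v => Sat M φ fun i => v (f i) :=
  ⟨φ.ren f, fun M v _ _ => sat_ren M φ f v⟩

theorem D.ren (h : D Q) (f : ℕ → ℕ) : D fun M v => Q M fun i => v (f i) := by
  obtain ⟨φ, h⟩ := h
  exact (D.sat φ f).congr fun M v hM hv => h M _ hM fun i => hv (f i)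

theorem D.mem (i j : ℕ) : D fun (_ : Set V.{u}) v => v i ∈ v j :=
  ⟨.mem i j, fun _ _ _ _ => Iff.rfl⟩
theorem D.eq (i j : ℕ) : D fun (_ : Set V.{u}) v => v i = v j :=
  ⟨.eq i j, fun _ _ _ _ => Iff.rfl⟩

theorem D.not (h : D Q) : D fun M v => ¬ Q M v := by
  obtain ⟨φ, h⟩ := h
  exact ⟨.neg φ, fun M v hM hv => not_congr (h M v hM hv)⟩

theorem D.and (h : D Q) (h' : D Q') : D fun M v => Q M v ∧ Q' M v := by
  obtain ⟨φ, h⟩ := h
  obtain ⟨φ', h'⟩ := h'
  exact ⟨.and φ φ', fun M v hM hv => and_congr (h M v hM hv) (h' M v hM hv)⟩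

theorem D.ex0 (h : D Q) : D fun M v => ∃ z ∈ M, Q M (cons z v) := by
  obtain ⟨φ, h⟩ := h
  exact ⟨.ex φ, fun M v hM hv =>
    exists_congr fun z => and_congr_right fun hz => h M _ hM (hv.cons hz)⟩

theorem D.imp (h : D Q) (h' : D Q') : D fun M v => Q M v → Q' M v :=
  (h.and h'.not).not.congr fun _ _ _ _ => by tauto

theorem D.or (h : D Q) (h' : D Q') : D fun M v => Q M v ∨ Q' M v :=
  (h.not.and h'.not).not.congr fun _ _ _ _ => by tauto

theorem D.iff (h : D Q) (h' : D Q') : D fun M v => Q M v ↔ Q' M v :=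
  ((h.imp h').and (h'.imp h)).congr fun _ _ _ _ => by tauto

section
variable {R : Set V.{u} → V.{u} → (ℕ → V.{u}) → Prop}

theorem D.ex (h : D fun M v => R M (v 0) fun i => v (i + 1)) :
    D fun M v => ∃ z ∈ M, R M z v := h.ex0

theorem D.all (h : D fun M v => R M (v 0) fun i => v (i + 1)) :
    D fun M v => ∀ z ∈ M, R M z v :=
  h.not.ex0.not.congr fun _ _ _ _ => by push Not; rfl

theorem D.bex (k : ℕ) (h : D fun M v => R M (v 0) fun i => v (i + 1)) :
    D fun M v => ∃ z ∈ v k, R M z v :=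
  ((D.mem 0 (k + 1)).and h).ex0.congr fun _ _ hM hv =>
    ⟨fun ⟨z, _, h1, h2⟩ => ⟨z, h1, h2⟩, fun ⟨z, h1, h2⟩ => ⟨z, hM _ (hv k) _ h1, h1, h2⟩⟩

theorem D.ball (k : ℕ) (h : D fun M v => R M (v 0) fun i => v (i + 1)) :
    D fun M v => ∀ z ∈ v k, R M z v :=
  (D.bex (R := fun M z v => ¬ R M z v) k h.not).not.congr fun _ _ _ _ => by push Not; rfl

end

theorem D.sub (i j : ℕ) : D fun (_ : Set V.{u}) v => v i ⊆ v j :=
  (D.ball (R := fun _ z v => z ∈ v j) i (D.mem 0 (j + 1))).congr fun _ _ _ _ => Iff.rfl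

theorem D.upair (k i j : ℕ) : D fun (_ : Set V.{u}) v => v k = {v i, v j} := by
  refine ((D.ball (R := fun _ z v => z = v i ∨ z = v j) k
    ((D.eq 0 (i + 1)).or (D.eq 0 (j + 1)))).and
    ((D.mem i k).and (D.mem j k))).congr fun _ v _ _ => ?_
  constructor
  · rintro ⟨h1, h2, h3⟩
    ext z
    rw [ZFSet.mem_pair]
    exact ⟨h1 z, fun h => h.elim (fun h => h ▸ h2) (fun h => h ▸ h3)⟩
  · intro h
    rw [h]
    simp [ZFSet.mem_pair]

theorem D.pair (k i j : ℕ) : D fun (_ : Set V.{u}) v => v k = ZFSet.pair (v i) (v j) := by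
  refine ((D.ball (R := fun _ z v => z = {v i, v i} ∨ z = {v i, v j}) k
    ((D.upair 0 (i + 1) (i + 1)).or (D.upair 0 (i + 1) (j + 1)))).and
    ((D.bex (R := fun _ z v => z = {v i, v i}) k (D.upair 0 (i + 1) (i + 1))).and
      (D.bex (R := fun _ z v => z = {v i, v j}) k (D.upair 0 (i + 1) (j + 1))))).congr
    fun _ v _ _ => ?_
  have e : ({v i, v i} : V.{u}) = {v i} := by ext; simp
  rw [e]
  constructor
  · rintro ⟨h1, ⟨a, h2, rfl⟩, ⟨b, h3, rfl⟩⟩
    ext z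
    rw [ZFSet.pair, ZFSet.mem_pair]
    exact ⟨h1 z, fun h => h.elim (fun h => h ▸ h2) (fun h => h ▸ h3)⟩
  · intro h
    rw [h, ZFSet.pair]
    simp [ZFSet.mem_pair]

theorem D.pmem (i j k : ℕ) : D fun (_ : Set V.{u}) v => ZFSet.pair (v i) (v j) ∈ v k :=
  (D.bex (R := fun _ z v => z = ZFSet.pair (v i) (v j)) k (D.pair 0 (i + 1) (j + 1))).congr
    fun _ _ _ _ => ⟨fun ⟨_, h1, h2⟩ => h2 ▸ h1, fun h => ⟨_, h, rfl⟩⟩

theorem D.trans (i : ℕ) : D fun (_ : Set V.{u}) v => (v i).IsTransitive :=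
  (D.ball (R := fun _ z v => z ⊆ v i) i (D.sub 0 (i + 1))).congr fun _ _ _ _ => Iff.rfl

theorem D.ord (i : ℕ) : D fun (_ : Set V.{u}) v => (v i).IsOrdinal :=
  ((D.trans i).and (D.ball (R := fun _ z _ => z.IsTransitive) i (D.trans 0))).congr
    fun _ _ _ _ => isOrdinal_iff_forall_mem_isTransitive.symm

/-- relativisation to a set -/
theorem D.rel (φ : Fm) : ∀ (f : ℕ → ℕ) (m : ℕ),
    D fun (_ : Set V.{u}) v => Sat (v m : Set V.{u}) φ fun i => v (f i) := by
  induction φ with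
  | mem i j => intro f m; exact D.mem _ _
  | eq i j => intro f m; exact D.eq _ _
  | neg φ ih => intro f m; exact (ih f m).not
  | and φ ψ ih ih' => intro f m; exact (ih f m).and (ih' f m)
  | ex φ ih =>
    intro f m
    refine (D.bex (R := fun _ z v => Sat (v m : Set V.{u}) φ (cons z fun i => v (f i))) m
      ((ih (sc 0 fun i => f i + 1) (m + 1)).congr fun M v _ _ => ?_)).congr
      fun _ _ _ _ => Iff.rfl
    rw [cons_comp v]

/-- prepend the first `n` values of `w` -/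
def app : ℕ → (ℕ → V.{u}) → (ℕ → V.{u}) → ℕ → V.{u}
  | 0, _, v => v
  | n + 1, w, v => cons (w 0) (app n (fun i => w (i + 1)) v)

theorem app_left : ∀ (n : ℕ) (w v : ℕ → V.{u}) (i : ℕ), i < n → app n w v i = w i
  | 0, _, _, _, h => absurd h (Nat.not_lt_zero _)
  | _ + 1, _, _, 0, _ => rfl
  | n + 1, w, v, i + 1, h => app_left n (fun i => w (i + 1)) v i (by omega)

theorem Good.app {M : Set V.{u}} : ∀ (n : ℕ) {w v : ℕ → V.{u}}, Good M w → Good M v →
    Good M (app n w v)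
  | 0, _, _, _, h => h
  | n + 1, _, _, hw, h => (Good.app n (fun i => hw (i + 1)) h).cons (hw 0)

theorem D.alln : ∀ (n : ℕ) {Q : Set V.{u} → (ℕ → V.{u}) → Prop}, D Q →
    D fun M v => ∀ w, Good M w → Q M (app n w v)
  | 0, _, h => h.congr fun _ _ _ hv => ⟨fun h _ _ => h, fun h => h _ hv⟩
  | n + 1, Q, h => by
    have h1 : D fun M v => ∀ z ∈ M, Q M (cons z v) :=
      h.not.ex0.not.congr fun _ _ _ _ => by push Not; rfl
    refine (D.alln n h1).congr fun M v _ _ => ⟨fun h w hw => ?_, fun h w hw z hz => ?_⟩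
    · exact h _ (fun i => hw (i + 1)) _ (hw 0)
    · exact h (cons z w) (hw.cons hz)

/-- universal closure -/
theorem D.closure (h : D Q) : D fun M _ => ∀ w, Good M w → Q M w := by
  obtain ⟨φ, hφ⟩ := h
  refine (D.alln φ.fv (D.sat φ id)).congr fun M v hM hv => ?_
  refine forall_congr' fun w => forall_congr' fun hw => ?_
  rw [← hφ M w hM hw]
  exact sat_congr M φ _ _ fun i hi => app_left _ _ _ _ hi

section transfer
variable {N M : Set V.{u}} {j : V.{u} → V.{u}}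

theorem Elem.map (h : Elem N M j) {x : V.{u}} (hx : x ∈ N) : j x ∈ M := h.1 x hx

theorem Elem.tf (h : Elem N M j) (hN : Tr N) (hM : Tr M) (hQ : D Q) {v : ℕ → V.{u}}
    (hv : Good N v) : Q N v ↔ Q M fun i => j (v i) := by
  obtain ⟨φ, hφ⟩ := hQ
  rw [← hφ N v hN hv, ← hφ M _ hM fun i => h.1 _ (hv i)]
  exact h.2 φ v hv

theorem Elem.tf0 (h : Elem N M j) (hN : Tr N) (hM : Tr M) {P : Set V.{u} → Prop}
    (hQ : D fun M _ => P M) {a : V.{u}} (ha : a ∈ N) : P N ↔ P M :=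
  h.tf hN hM hQ (v := fun _ => a) fun _ => ha

theorem Elem.tf1 (h : Elem N M j) (hN : Tr N) (hM : Tr M) {P : Set V.{u} → V.{u} → Prop}
    (hQ : D fun M v => P M (v 0)) {a : V.{u}} (ha : a ∈ N) : P N a ↔ P M (j a) :=
  h.tf hN hM hQ (v := fun _ => a) fun _ => ha

theorem Elem.tf2 (h : Elem N M j) (hN : Tr N) (hM : Tr M)
    {P : Set V.{u} → V.{u} → V.{u} → Prop}
    (hQ : D fun M v => P M (v 0) (v 1)) {a b : V.{u}} (ha : a ∈ N) (hb : b ∈ N) :
    P N a b ↔ P M (j a) (j b) :=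
  h.tf hN hM hQ (v := cons a fun _ => b) (Good.cons (fun _ => hb) ha)

theorem Elem.tf3 (h : Elem N M j) (hN : Tr N) (hM : Tr M)
    {P : Set V.{u} → V.{u} → V.{u} → V.{u} → Prop}
    (hQ : D fun M v => P M (v 0) (v 1) (v 2)) {a b c : V.{u}} (ha : a ∈ N) (hb : b ∈ N)
    (hc : c ∈ N) : P N a b c ↔ P M (j a) (j b) (j c) :=
  h.tf hN hM hQ (v := cons a (cons b fun _ => c)) ((Good.cons (fun _ => hc) hb).cons ha)

theorem Elem.tf4 (h : Elem N M j) (hN : Tr N) (hM : Tr M)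
    {P : Set V.{u} → V.{u} → V.{u} → V.{u} → V.{u} → Prop}
    (hQ : D fun M v => P M (v 0) (v 1) (v 2) (v 3)) {a b c d : V.{u}} (ha : a ∈ N) (hb : b ∈ N)
    (hc : c ∈ N) (hd : d ∈ N) : P N a b c d ↔ P M (j a) (j b) (j c) (j d) :=
  h.tf hN hM hQ (v := cons a (cons b (cons c fun _ => d)))
    (((Good.cons (fun _ => hd) hc).cons hb).cons ha)

theorem Elem.mem_iff (h : Elem N M j) {a b : V.{u}} (ha : a ∈ N) (hb : b ∈ N) :
    j a ∈ j b ↔ a ∈ b :=
  (h.2 (.mem 0 1) (cons a fun _ => b) (Good.cons (fun _ => hb) ha)).symm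

theorem Elem.eq_iff (h : Elem N M j) {a b : V.{u}} (ha : a ∈ N) (hb : b ∈ N) :
    j a = j b ↔ a = b :=
  (h.2 (.eq 0 1) (cons a fun _ => b) (Good.cons (fun _ => hb) ha)).symm

/-- restriction of an elementary embedding to an element of the domain -/
theorem Elem.restrict (h : Elem N M j) (hN : Tr N) (hM : Tr M) {a : V.{u}} (ha : a ∈ N) :
    Elem (a : Set V.{u}) (j a : Set V.{u}) j := by
  refine ⟨fun x hx => (h.mem_iff (hN _ ha _ hx) ha).2 hx, fun φ v hv => ?_⟩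
  exact h.tf hN hM (D.rel φ (fun i => i + 1) 0) (v := cons a v)
    (Good.cons (fun i => hN _ ha _ (hv i)) ha)

theorem Elem.trans_map (h : Elem N M j) (hN : Tr N) (hM : Tr M) {a : V.{u}} (ha : a ∈ N)
    (ht : a.IsTransitive) : (j a).IsTransitive :=
  (h.tf1 hN hM (P := fun _ a => a.IsTransitive) (D.trans 0) ha).1 ht

theorem Elem.ord_map (h : Elem N M j) (hN : Tr N) (hM : Tr M) {o : Ordinal.{u}}
    (ho : o.toZFSet ∈ N) : ∃ o' : Ordinal.{u}, j o.toZFSet = o'.toZFSet :=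
  ⟨_, ((h.tf1 hN hM (P := fun _ a => a.IsOrdinal) (D.ord 0) ho).1
    (isOrdinal_toZFSet o)).toZFSet_rank_eq.symm⟩

end transfer

end Pool.Agent.H697Z.Gss
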