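import Mathlib

set_option autoImplicit false

/-!
# Definitions: models of ZFC, elementary embeddings, Psi-large cardinals

The universe of sets is `ZFSet.{u}`; `ZFSet.vonNeumann o` is the level `V_o` of the cumulative
hierarchy and `o.toZFSet` is the von Neumann ordinal `o`.
-/

universe u

namespace Pool.Agent.H697Z.Gss

open ZFSet Order

/-- First order formulas of the language of set theory; variables are de Bruijn indices. -/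
inductive Fm : Type
  | mem (i j : ℕ) : Fm
  | eq (i j : ℕ) : Fm
  | neg (φ : Fm) : Fm
  | and (φ ψ : Fm) : Fm
  | ex (φ : Fm) : Fm

/-- The assignment with `z` in place `0` and `v n` in place `n + 1`. -/
def cons (z : ZFSet.{u}) (v : ℕ → ZFSet.{u}) : ℕ → ZFSet.{u}
  | 0 => z
  | n + 1 => v n

/-- Tarski satisfaction in the structure `(M, ∈)`. -/
def Sat (M : Set ZFSet.{u}) : Fm → (ℕ → ZFSet.{u}) → Prop
  | .mem i j, v => v i ∈ v j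
  | .eq i j, v => v i = v j
  | .neg φ, v => ¬ Sat M φ v
  | .and φ ψ, v => Sat M φ v ∧ Sat M ψ v
  | .ex φ, v => ∃ z ∈ M, Sat M φ (cons z v)

/-- The structure `(W, ∈)` satisfies every axiom of ZFC (separation and replacement for all
first order formulas with parameters). -/
structure IsModelZFC (W : Set ZFSet.{u}) : Prop where
  ext : ∀ x ∈ W, ∀ y ∈ W, (∀ z ∈ W, z ∈ x ↔ z ∈ y) → x = y
  found : ∀ x ∈ W, (∃ y ∈ W, y ∈ x) → ∃ y ∈ W, y ∈ x ∧ ∀ z ∈ W, z ∈ y → z ∉ x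
  pairing : ∀ x ∈ W, ∀ y ∈ W, ∃ p ∈ W, ∀ z ∈ W, z ∈ p ↔ z = x ∨ z = y
  union : ∀ x ∈ W, ∃ s ∈ W, ∀ z ∈ W, z ∈ s ↔ ∃ y ∈ W, y ∈ x ∧ z ∈ y
  power : ∀ x ∈ W, ∃ p ∈ W, ∀ z ∈ W, z ∈ p ↔ ∀ w ∈ W, w ∈ z → w ∈ x
  infinity : ∃ i ∈ W, (∃ e ∈ W, e ∈ i ∧ ∀ z ∈ W, z ∉ e) ∧
    ∀ x ∈ W, x ∈ i → ∃ s ∈ W, s ∈ i ∧ ∀ z ∈ W, z ∈ s ↔ z ∈ x ∨ z = x
  separation : ∀ (φ : Fm) (v : ℕ → ZFSet.{u}), (∀ n, v n ∈ W) → ∀ x ∈ W,
    ∃ s ∈ W, ∀ z ∈ W, z ∈ s ↔ z ∈ x ∧ Sat W φ (cons z v)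
  replacement : ∀ (φ : Fm) (v : ℕ → ZFSet.{u}), (∀ n, v n ∈ W) → ∀ a ∈ W,
    (∀ x ∈ W, x ∈ a → ∀ y ∈ W, ∀ y' ∈ W,
      Sat W φ (cons y (cons x v)) → Sat W φ (cons y' (cons x v)) → y = y') →
    ∃ b ∈ W, ∀ y ∈ W, y ∈ b ↔ ∃ x ∈ W, x ∈ a ∧ Sat W φ (cons y (cons x v))
  choice : ∀ x ∈ W, (∀ y ∈ W, y ∈ x → ∃ z ∈ W, z ∈ y) →
    (∀ y ∈ W, ∀ y' ∈ W, y ∈ x → y' ∈ x → y ≠ y' → ∀ z ∈ W, z ∈ y → z ∉ y') →
    ∃ c ∈ W, ∀ y ∈ W, y ∈ x → ∃ z ∈ W, (z ∈ y ∧ z ∈ c) ∧ ∀ z' ∈ W, z' ∈ y ∧ z' ∈ c → z' = z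

/-- `j` restricted to `N` is an elementary embedding of `(N, ∈)` into `(M, ∈)`. -/
def Elem (N M : Set ZFSet.{u}) (j : ZFSet.{u} → ZFSet.{u}) : Prop :=
  (∀ x ∈ N, j x ∈ M) ∧ ∀ (φ : Fm) (v : ℕ → ZFSet.{u}), (∀ n, v n ∈ N) →
    (Sat N φ v ↔ Sat M φ fun n => j (v n))

/-- `κ` is supercompact: it is uncountable and for every set `I` of size at least `κ` there is a
`κ`-complete, fine, normal ultrafilter on `P_κ(I)`, the subsets of `I` of size less than `κ`. -/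
def Supercompact (κ : Cardinal.{u}) : Prop :=
  Cardinal.aleph0 < κ ∧ ∀ I : Type u, κ ≤ Cardinal.mk I →
    ∃ U : Ultrafilter {x : Set I // Cardinal.mk x < κ},
      (∀ S : Set (Set {x : Set I // Cardinal.mk x < κ}), Cardinal.mk S < κ →
        (∀ s ∈ S, s ∈ U) → ⋂₀ S ∈ U) ∧
      (∀ i : I, {x | i ∈ x.1} ∈ U) ∧
      ∀ f : {x : Set I // Cardinal.mk x < κ} → I, {x | f x ∈ x.1} ∈ U →
        ∃ i : I, {x | f x = i} ∈ U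

/-- `f` is a bijection from `x` onto `y`. -/
def IsBij (x y f : ZFSet.{u}) : Prop :=
  IsFunc x y f ∧ ∀ b ∈ y, ∃! a, pair a b ∈ f

/-- The ordinal `μ` belongs to `N` and is a cardinal in `N`. -/
def CardIn (N : ZFSet.{u}) (μ : Ordinal.{u}) : Prop :=
  μ.toZFSet ∈ N ∧ ∀ β < μ, ¬ ∃ f ∈ N, IsBij β.toZFSet μ.toZFSet f

/-- `κ` is singular in `N`: some function in `N` maps an ordinal `β < κ` cofinally into `κ`. -/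
def SingularIn (N : ZFSet.{u}) (κ : Ordinal.{u}) : Prop :=
  ∃ β < κ, ∃ f ∈ N, IsFunc β.toZFSet κ.toZFSet f ∧
    ∀ γ < κ, ∃ ξ < β, ∃ δ : Ordinal.{u}, γ ≤ δ ∧ pair ξ.toZFSet δ.toZFSet ∈ f

/-- Closure under pairs, products and intersections. -/
def BasicClosed (M : ZFSet.{u}) : Prop :=
  ∀ x ∈ M, ∀ y ∈ M, ({x, y} : ZFSet.{u}) ∈ M ∧ prod x y ∈ M ∧ x ∩ y ∈ M

/-- The tuple `⟨N, M, μ, ν, ρ⟩` is suitable. -/
def Suitable (N M : ZFSet.{u}) (μ ν ρ : Ordinal.{u}) : Prop :=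
  M ⊆ N ∧ M.IsTransitive ∧ N.IsTransitive ∧ BasicClosed M ∧ BasicClosed N ∧
  (∃ δ : Ordinal.{u}, IsSuccLimit δ ∧ (∀ o : Ordinal.{u}, o.toZFSet ∈ M ↔ o < δ) ∧
    ∀ o : Ordinal.{u}, o.toZFSet ∈ N ↔ o < δ) ∧
  μ < ν ∧ ν < ρ ∧ IsSuccLimit μ ∧ IsSuccLimit ν ∧ IsSuccLimit ρ ∧
  μ.toZFSet ∈ M ∧ ν.toZFSet ∈ M ∧ ρ.toZFSet ∈ M ∧ CardIn N μ

/-- The formula `Ψ_gss`: the tuple is suitable and `N ∩ V_ν ⊆ M`. -/
def PsiGss (N M : ZFSet.{u}) (μ ν ρ : Ordinal.{u}) : Prop :=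
  Suitable N M μ ν ρ ∧ N ∩ vonNeumann ν ⊆ M

/-- `κ` is a `Ψ`-large cardinal in the model `V_Ω`: all quantifiers of the definition range over
`V_Ω`; the embedding `j` is given with its graph `g`. -/
def PsiLarge (Ω : Ordinal.{u})
    (Ψ : ZFSet.{u} → ZFSet.{u} → Ordinal.{u} → Ordinal.{u} → Ordinal.{u} → Prop)
    (κ : Ordinal.{u}) : Prop :=
  CardIn (vonNeumann Ω) κ ∧
  ∀ η θ : Ordinal.{u}, IsSuccLimit η → IsSuccLimit θ → κ < η → η < θ → θ < Ω →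
    ∀ ξ < Ω, ∃ lam : Ordinal.{u}, ξ ≤ lam ∧ η ≤ lam ∧ CardIn (vonNeumann Ω) lam ∧
      ∃ M ∈ vonNeumann Ω, M.IsTransitive ∧ ∃ j : ZFSet.{u} → ZFSet.{u},
        (∃ g ∈ vonNeumann Ω, IsFunc (vonNeumann (θ + 1)) M g ∧
          ∀ x ∈ vonNeumann (θ + 1), pair x (j x) ∈ g) ∧
        Elem (vonNeumann (θ + 1) : Set ZFSet.{u}) (M : Set ZFSet.{u}) j ∧
        ∃ κ' η' θ' : Ordinal.{u}, j κ.toZFSet = κ'.toZFSet ∧ j η.toZFSet = η'.toZFSet ∧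
          j θ.toZFSet = θ'.toZFSet ∧ lam < κ' ∧
          Ψ (vonNeumann θ') (M ∩ vonNeumann θ') lam κ' η'

/-- `μ` is globally superstrong in the model `V_Ω`, in the most liberal reading: the transitive
class `M` and the embedding `j : V_Ω → M` may be arbitrary (definable over `V_Ω` or not). -/
def GloballySuperstrong (Ω μ : Ordinal.{u}) : Prop :=
  CardIn (vonNeumann Ω) μ ∧ ∀ lam < Ω, μ < lam →
    ∃ (M : Set ZFSet.{u}) (j : ZFSet.{u} → ZFSet.{u}),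
      M ⊆ (vonNeumann Ω : Set ZFSet.{u}) ∧ (∀ x ∈ M, ∀ y ∈ x, y ∈ M) ∧
      Elem (vonNeumann Ω : Set ZFSet.{u}) M j ∧
      (∀ β < μ, j β.toZFSet = β.toZFSet) ∧
      ∃ μ' : Ordinal.{u}, j μ.toZFSet = μ'.toZFSet ∧ lam < μ' ∧
        (vonNeumann μ' : Set ZFSet.{u}) ⊆ M

end Pool.Agent.H697Z.Gss
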