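import Pool.Agent.H697Z.GssD

set_option autoImplicit false

universe u

namespace Pool.Agent.H697Z.Gss

open ZFSet Order

/-- `s` is a level of the cumulative hierarchy as computed in `M` -/
def LevIn (M : Set V.{u}) (s : V.{u}) : Prop :=
  ∃ h ∈ M, (∀ a ∈ h, ∀ z ∈ M, z ∈ a ↔ ∃ c ∈ a, c ∈ h ∧ z ⊆ c) ∧
    ∀ z ∈ M, z ∈ s ↔ ∃ c ∈ h, z ⊆ c

theorem D.lev (i : ℕ) : D fun (M : Set V.{u}) v => LevIn M (v i) := by
  unfold LevIn
  repeat' first
    | exact D.mem _ _ | exact D.sub _ _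
    | apply D.and | apply D.iff | apply D.bex | apply D.ball | apply D.ex | apply D.all

theorem lev_step {M : Set V.{u}} (hM : Tr M) {a S : V.{u}} (ha : a ∈ M)
    (hS : ∀ c ∈ S, ∃ δ : Ordinal.{u}, ∀ z, z ∈ c ↔ z ∈ M ∧ z ∈ vonNeumann δ)
    (h : ∀ z ∈ M, z ∈ a ↔ ∃ c ∈ S, z ⊆ c) :
    ∃ δ : Ordinal.{u}, ∀ z, z ∈ a ↔ z ∈ M ∧ z ∈ vonNeumann δ := by
  choose d hd using hS
  refine ⟨⨆ c : S, (d c.1 c.2 + 1), fun z => ⟨fun hz => ?_, fun ⟨hz, hz'⟩ => ?_⟩⟩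
  · have hzM := hM _ ha _ hz
    obtain ⟨c, hc, hzc⟩ := (h z hzM).1 hz
    refine ⟨hzM, mem_vonNeumann.2 ?_⟩
    have h1 : rank z ≤ d c hc := subset_vonNeumann.1 fun w hw => ((hd c hc w).1 (hzc hw)).2
    exact (lt_add_one_iff.2 h1).trans_le (Ordinal.le_iSup (fun c : S => d c.1 c.2 + 1) ⟨c, hc⟩)
  · obtain ⟨⟨c, hc⟩, h1⟩ := (Ordinal.lt_iSup_iff).1 (mem_vonNeumann.1 hz')
    refine (h z hz).2 ⟨c, hc, fun w hw => (hd c hc w).2 ⟨hM _ hz _ hw, ?_⟩⟩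
    exact subset_vonNeumann.2 (lt_add_one_iff.1 h1) hw

theorem LevIn.spec {M : Set V.{u}} (hM : Tr M) {s : V.{u}} (hs : s ∈ M) (h : LevIn M s) :
    ∃ δ : Ordinal.{u}, ∀ z, z ∈ s ↔ z ∈ M ∧ z ∈ vonNeumann δ := by
  obtain ⟨h, hh, h1, h2⟩ := h
  have key : ∀ a, a ∈ h → ∃ δ : Ordinal.{u}, ∀ z, z ∈ a ↔ z ∈ M ∧ z ∈ vonNeumann δ := by
    intro a
    induction a using ZFSet.inductionOn with
    | _ a ih =>
    intro ha
    refine lev_step hM (hM _ hh _ ha) (S := a ∩ h)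
      (fun c hc => ih c (mem_inter.1 hc).1 (mem_inter.1 hc).2) fun z hz => ?_
    rw [h1 a ha z hz]
    simp only [mem_inter, and_assoc]
  exact lev_step hM hs key h2

theorem levIn_vn {N : Set V.{u}} {γ : Ordinal.{u}}
    (hγ : (vonNeumann (γ + 1) : Set V.{u}) ⊆ N) : LevIn N (vonNeumann γ) := by
  refine ⟨range fun a : Set.Iio γ => vonNeumann a.1, hγ ?_, ?_, ?_⟩
  · show _ ∈ vonNeumann (γ + 1)
    rw [vonNeumann_add_one, mem_powerset]
    intro z hz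
    obtain ⟨a, rfl⟩ := mem_range.1 hz
    exact vonNeumann_mem_of_lt a.2
  · intro a ha z _
    obtain ⟨a, rfl⟩ := mem_range.1 ha
    rw [mem_vonNeumann']
    constructor
    · rintro ⟨b, hb, hz⟩
      exact ⟨_, vonNeumann_mem_of_lt hb, mem_range.2 ⟨⟨b, hb.trans a.2⟩, rfl⟩, hz⟩
    · rintro ⟨c, hc, hc', hz⟩
      obtain ⟨b, rfl⟩ := mem_range.1 hc'
      exact ⟨b.1, vonNeumann_mem_vonNeumann_iff.1 hc, hz⟩
  · intro z _
    rw [mem_vonNeumann']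
    constructor
    · rintro ⟨b, hb, hz⟩
      exact ⟨_, mem_range.2 ⟨⟨b, hb⟩, rfl⟩, hz⟩
    · rintro ⟨c, hc', hz⟩
      obtain ⟨b, rfl⟩ := mem_range.1 hc'
      exact ⟨b.1, b.2, hz⟩

theorem ord_mem_vn {a b : Ordinal.{u}} : a.toZFSet ∈ vonNeumann b ↔ a < b := by
  rw [mem_vonNeumann, Ordinal.rank_toZFSet]

theorem vn_sub {a b : Ordinal.{u}} (h : a ≤ b) :
    (vonNeumann a : Set V.{u}) ⊆ (vonNeumann b : Set V.{u}) :=
  fun _ hx => vonNeumann_subset_of_le h hx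

/-- the image of a level is the level at the image, computed in the target -/
theorem Elem.map_vn {N M : Set V.{u}} {j : V.{u} → V.{u}} (h : Elem N M j) (hN : Tr N)
    (hM : Tr M) {γ γ' : Ordinal.{u}} (hγ : (vonNeumann (γ + 1) : Set V.{u}) ⊆ N)
    (e : j γ.toZFSet = γ'.toZFSet) (z : V.{u}) :
    z ∈ j (vonNeumann γ) ↔ z ∈ M ∧ z ∈ vonNeumann γ' := by
  have h1 : vonNeumann γ ∈ N := hγ (vonNeumann_mem_of_lt (lt_add_one γ))
  have h2 : γ.toZFSet ∈ N := hγ (ord_mem_vn.2 (lt_add_one γ))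
  obtain ⟨δ, hδ⟩ := ((h.tf1 hN hM (P := LevIn) (D.lev 0) h1).1 (levIn_vn hγ)).spec hM (h.map h1)
  have h3 : j γ.toZFSet ⊆ j (vonNeumann γ) :=
    (h.tf2 hN hM (P := fun _ a b => a ⊆ b) (D.sub 0 1) h2 h1).1
      (Ordinal.toZFSet_subset_vonNeumann γ)
  have h4 : j γ.toZFSet ∉ j (vonNeumann γ) := by
    rw [h.mem_iff h2 h1, ord_mem_vn]
    exact lt_irrefl _
  have h5 : γ' ≤ δ := by
    refine le_of_forall_lt fun a ha => ?_
    have := h3 (e ▸ Ordinal.toZFSet_mem_toZFSet_iff.2 ha)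
    exact ord_mem_vn.1 ((hδ _).1 this).2
  have h6 : δ ≤ γ' := by
    by_contra hc
    exact h4 ((hδ _).2 ⟨h.map h2, e ▸ ord_mem_vn.2 (not_le.1 hc)⟩)
  rw [hδ, le_antisymm h5 h6]

section limit
variable {o : Ordinal.{u}} {x y : V.{u}}

theorem upair_mem_vn (ho : IsSuccPrelimit o) (hx : x ∈ vonNeumann o) (hy : y ∈ vonNeumann o) :
    ({x, y} : V.{u}) ∈ vonNeumann o := by
  rw [mem_vonNeumann] at *
  rw [rank_pair]
  exact max_lt (ho.succ_lt hx) (ho.succ_lt hy)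

theorem pair_mem_vn (ho : IsSuccPrelimit o) (hx : x ∈ vonNeumann o) (hy : y ∈ vonNeumann o) :
    pair x y ∈ vonNeumann o := by
  have h1 := upair_mem_vn ho hx hx
  rw [pair_eq_singleton] at h1
  exact upair_mem_vn ho h1 (upair_mem_vn ho hx hy)

theorem rank_pair_le {a : Ordinal.{u}} (hx : rank x < a) (hy : rank y < a) :
    rank (pair x y) < a + 1 + 1 := by
  rw [pair, rank_pair, rank_singleton, rank_pair]
  simp only [← succ_eq_add_one]
  refine max_lt ?_ ?_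
  · exact succ_lt_succ (succ_lt_succ hx)
  · exact succ_lt_succ (max_lt (succ_lt_succ hx) (succ_lt_succ hy))

theorem rank_prod_le : rank (prod x y) ≤ max (rank x) (rank y) + 1 + 1 := by
  rw [rank_le_iff]
  intro z hz
  obtain ⟨a, ha, b, hb, rfl⟩ := mem_prod.1 hz
  exact rank_pair_le ((rank_lt_of_mem ha).trans_le (le_max_left _ _))
    ((rank_lt_of_mem hb).trans_le (le_max_right _ _))

theorem prod_mem_vn (ho : IsSuccPrelimit o) (hx : x ∈ vonNeumann o) (hy : y ∈ vonNeumann o) :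
    prod x y ∈ vonNeumann o := by
  rw [mem_vonNeumann] at *
  exact rank_prod_le.trans_lt (ho.add_one_lt (ho.add_one_lt (max_lt hx hy)))

theorem powerset_mem_vn (ho : IsSuccPrelimit o) (hx : x ∈ vonNeumann o) :
    powerset x ∈ vonNeumann o := by
  rw [mem_vonNeumann] at *
  rw [rank_powerset]
  exact ho.succ_lt hx

theorem basicClosed_vn (ho : IsSuccPrelimit o) : BasicClosed (vonNeumann o) :=
  fun _ hx _ hy => ⟨upair_mem_vn ho hx hy, prod_mem_vn ho hx hy,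
    mem_vonNeumann_of_subset (fun _ h => (mem_inter.1 h).1) hx⟩

end limit

theorem mem_of_pair_mem_left {M : Set V.{u}} (hM : Tr M) {x y : V.{u}} (h : pair x y ∈ M) :
    x ∈ M :=
  hM {x} (hM _ h _ (by simp [pair])) _ (by simp)

theorem mem_of_pair_mem_right {M : Set V.{u}} (hM : Tr M) {x y : V.{u}} (h : pair x y ∈ M) :
    y ∈ M :=
  hM {x, y} (hM _ h _ (by simp [pair])) _ (by simp)

/-- a set which has no largest element under membership and is not empty -/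
def Lim (a : V.{u}) : Prop := (∃ x ∈ a, x = x) ∧ ∀ x ∈ a, ∃ y ∈ a, x ∈ y

theorem D.lim (i : ℕ) : D fun (_ : Set V.{u}) v => Lim (v i) := by
  unfold Lim
  repeat' first
    | exact D.mem _ _ | exact D.eq _ _
    | apply D.and | apply D.bex | apply D.ball

theorem lim_ord {o : Ordinal.{u}} : Lim o.toZFSet ↔ IsSuccLimit o := by
  rw [Ordinal.isSuccLimit_iff]
  constructor
  · rintro ⟨⟨x, hx, -⟩, h⟩
    refine ⟨?_, isSuccPrelimit_of_succ_lt fun a ha => ?_⟩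
    · rintro rfl
      simp at hx
    · obtain ⟨y, hy, hay⟩ := h _ (Ordinal.toZFSet_mem_toZFSet_iff.2 ha)
      obtain ⟨b, hb, rfl⟩ := Ordinal.mem_toZFSet_iff.1 hy
      exact (succ_le_of_lt (Ordinal.toZFSet_mem_toZFSet_iff.1 hay)).trans_lt hb
  · rintro ⟨h0, h⟩
    refine ⟨⟨_, Ordinal.toZFSet_mem_toZFSet_iff.2 (pos_iff_ne_zero.2 h0), rfl⟩, fun x hx => ?_⟩
    obtain ⟨b, hb, rfl⟩ := Ordinal.mem_toZFSet_iff.1 hx
    exact ⟨_, Ordinal.toZFSet_mem_toZFSet_iff.2 (h.succ_lt hb),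
      Ordinal.toZFSet_mem_toZFSet_iff.2 (lt_succ b)⟩

theorem lim_vn {o : Ordinal.{u}} : Lim (vonNeumann o) ↔ IsSuccLimit o := by
  rw [Ordinal.isSuccLimit_iff]
  constructor
  · rintro ⟨⟨x, hx, -⟩, h⟩
    refine ⟨?_, isSuccPrelimit_of_succ_lt fun a ha => ?_⟩
    · rintro rfl
      simp at hx
    · obtain ⟨y, hy, hay⟩ := h _ (ord_mem_vn.2 ha)
      have := rank_lt_of_mem hay
      rw [Ordinal.rank_toZFSet] at this
      exact (succ_le_of_lt this).trans_lt (mem_vonNeumann.1 hy)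
  · rintro ⟨h0, h⟩
    refine ⟨⟨_, ord_mem_vn.2 (pos_iff_ne_zero.2 h0), rfl⟩, fun x hx => ?_⟩
    exact ⟨{x, x}, upair_mem_vn h hx hx, by simp⟩

/-- the set-theoretic graph of a function on a set -/
noncomputable def graph (x : V.{u}) (f : V.{u} → V.{u}) : V.{u} :=
  range fun a : x => pair a.1 (f a.1)

theorem mem_graph {x p : V.{u}} {f : V.{u} → V.{u}} :
    p ∈ graph x f ↔ ∃ a ∈ x, p = pair a (f a) := by
  rw [graph, mem_range]
  exact ⟨fun ⟨a, h⟩ => ⟨a.1, a.2, h.symm⟩, fun ⟨a, h1, h2⟩ => ⟨⟨a, h1⟩, h2.symm⟩⟩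

theorem pair_mem_graph {x a b : V.{u}} {f : V.{u} → V.{u}} :
    pair a b ∈ graph x f ↔ a ∈ x ∧ b = f a := by
  rw [mem_graph]
  constructor
  · rintro ⟨a', h1, h2⟩
    obtain ⟨rfl, rfl⟩ := pair_inj.1 h2
    exact ⟨h1, rfl⟩
  · rintro ⟨h1, rfl⟩
    exact ⟨a, h1, rfl⟩

theorem graph_sub_prod {x y : V.{u}} {f : V.{u} → V.{u}} (h : ∀ a ∈ x, f a ∈ y) :
    graph x f ⊆ prod x y := by
  intro p hp
  obtain ⟨a, ha, rfl⟩ := mem_graph.1 hp
  exact pair_mem_prod.2 ⟨ha, h a ha⟩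

theorem isFunc_graph {x y : V.{u}} {f : V.{u} → V.{u}} (h : ∀ a ∈ x, f a ∈ y) :
    IsFunc x y (graph x f) :=
  ⟨graph_sub_prod h, fun z hz => ⟨f z, pair_mem_graph.2 ⟨hz, rfl⟩,
    fun _ hw => (pair_mem_graph.1 hw).2⟩⟩

/-- `f` codes an injection of `x` into `y` -/
def Inj (x y f : V.{u}) : Prop :=
  (∀ a ∈ x, ∃ b ∈ y, pair a b ∈ f) ∧
    ∀ a ∈ x, ∀ a' ∈ x, ∀ b ∈ y, pair a b ∈ f → pair a' b ∈ f → a = a'

theorem D.inj (i j k : ℕ) : D fun (_ : Set V.{u}) v => Inj (v i) (v j) (v k) := by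
  unfold Inj
  repeat' first
    | exact D.pmem _ _ _ | exact D.eq _ _
    | apply D.and | apply D.bex | apply D.ball | apply D.imp

theorem Inj.card_le {x y f : V.{u}} (h : Inj x y f) : card x ≤ card y := by
  choose g hg hg' using h.1
  rw [← Cardinal.lift_le.{u + 1}, ← cardinalMk_coe_sort, ← cardinalMk_coe_sort]
  refine Cardinal.mk_le_of_injective (f := fun a : x => (⟨g a.1 a.2, hg a.1 a.2⟩ : y)) ?_
  intro a a' e
  have e' : g a.1 a.2 = g a'.1 a'.2 := congrArg Subtype.val e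
  exact Subtype.ext (h.2 _ a.2 _ a'.2 _ (hg _ a.2) (hg' _ a.2) (e' ▸ hg' _ a'.2))

theorem exists_inj {x y : V.{u}} (h : card x ≤ card y) : ∃ f, f ⊆ prod x y ∧ Inj x y f := by
  classical
  rw [← Cardinal.lift_le.{u + 1}, ← cardinalMk_coe_sort, ← cardinalMk_coe_sort] at h
  obtain ⟨g⟩ := (Cardinal.le_def _ _).1 h
  let f : V.{u} → V.{u} := fun a => if ha : a ∈ x then (g ⟨a, ha⟩).1 else ∅
  have hf : ∀ a (ha : a ∈ x), f a = (g ⟨a, ha⟩).1 := fun a ha => dif_pos ha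
  have hf' : ∀ a ∈ x, f a ∈ y := fun a ha => hf a ha ▸ (g ⟨a, ha⟩).2
  refine ⟨graph x f, graph_sub_prod hf', fun a ha => ⟨f a, hf' a ha, pair_mem_graph.2 ⟨ha, rfl⟩⟩,
    fun a ha a' ha' b _ h1 h2 => ?_⟩
  have e := (pair_mem_graph.1 h1).2.symm.trans (pair_mem_graph.1 h2).2
  rw [hf a ha, hf a' ha'] at e
  exact congrArg Subtype.val (g.injective (Subtype.ext e))

/-- the rank of a transitive set is at most its size -/
theorem rank_card_le {M : V.{u}} (hM : M.IsTransitive) : (rank M).card ≤ card M := by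
  have key : ∀ γ < rank M, ∃ x ∈ M, rank x = γ := by
    intro γ hγ
    obtain ⟨y, hy, hy'⟩ := lt_rank_iff.1 hγ
    obtain ⟨δ, ⟨x, hx, rfl, h1⟩, hmin⟩ := Ordinal.lt_wf.has_min
      {δ | ∃ x ∈ M, rank x = δ ∧ γ ≤ δ} ⟨_, y, hy, rfl, hy'⟩
    refine ⟨x, hx, le_antisymm (not_lt.1 fun h2 => ?_) h1⟩
    obtain ⟨z, hz, hz'⟩ := lt_rank_iff.1 h2
    exact hmin _ ⟨z, hM x hx hz, rfl, hz'⟩ (rank_lt_of_mem hz)
  choose g hg hg' using key
  rw [← Ordinal.card_toZFSet, ← Cardinal.lift_le.{u + 1}, ← cardinalMk_coe_sort,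
    ← cardinalMk_coe_sort]
  have hr : ∀ a : (rank M).toZFSet, rank a.1 < rank M := fun a => by
    simpa using rank_lt_of_mem a.2
  refine Cardinal.mk_le_of_injective
    (f := fun a : (rank M).toZFSet => (⟨g _ (hr a), hg _ (hr a)⟩ : M)) ?_
  intro a a' e
  have e' : g _ (hr a) = g _ (hr a') := congrArg Subtype.val e
  have e2 : rank a.1 = rank a'.1 := by rw [← hg' _ (hr a), e', hg']
  exact Subtype.ext ((IsOrdinal.rank_inj ((isOrdinal_toZFSet _).mem a.2)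
    ((isOrdinal_toZFSet _).mem a'.2)).1 e2)

end Pool.Agent.H697Z.Gss
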