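import Pool.Agent.H697Z.GssLev

set_option autoImplicit false

universe u

namespace Pool.Agent.H697Z.Gss

open ZFSet Order

/-- one instance of replacement -/
def ReplAt (φ : Fm) (W : Set V.{u}) (v : ℕ → V.{u}) : Prop :=
  ∀ a ∈ W, (∀ x ∈ W, x ∈ a → ∀ y ∈ W, ∀ y' ∈ W,
      Sat W φ (cons y (cons x v)) → Sat W φ (cons y' (cons x v)) → y = y') →
    ∃ b ∈ W, ∀ y ∈ W, y ∈ b ↔ ∃ x ∈ W, x ∈ a ∧ Sat W φ (cons y (cons x v))

def Repl (W : Set V.{u}) : Prop := ∀ (φ : Fm) (v : ℕ → V.{u}), Good W v → ReplAt φ W v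

/-- every set injects into an ordinal -/
def Sig (W : Set V.{u}) : Prop := ∀ x ∈ W, ∃ b ∈ W, ∃ f ∈ W, b.IsOrdinal ∧ Inj x b f

theorem D.sat2 (φ : Fm) (i k : ℕ) (f : ℕ → ℕ) :
    D fun (M : Set V.{u}) v => Sat M φ (cons (v i) (cons (v k) fun n => v (f n))) :=
  (D.sat φ (sc i (sc k f))).congr fun M v _ _ => by rw [cons_comp v, cons_comp v]

theorem D.replAt (φ : Fm) : D fun (M : Set V.{u}) v => ReplAt φ M v := by
  unfold ReplAt
  repeat' first
    | exact D.mem _ _ | exact D.eq _ _ | exact D.sat2 _ _ _ _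
    | apply D.and | apply D.iff | apply D.ex | apply D.all | apply D.imp

theorem D.sig : D fun (M : Set V.{u}) _ => Sig M := by
  unfold Sig
  repeat' first
    | exact D.ord _ | exact D.inj _ _ _
    | apply D.and | apply D.ex | apply D.all

theorem Elem.repl {N M : Set V.{u}} {j : V.{u} → V.{u}} (h : Elem N M j) (hN : Tr N) (hM : Tr M)
    {a : V.{u}} (ha : a ∈ N) : Repl N ↔ Repl M :=
  forall_congr' fun φ => h.tf0 hN hM (P := fun M => ∀ w, Good M w → ReplAt φ M w)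
    (D.replAt φ).closure ha

theorem Elem.sig {N M : Set V.{u}} {j : V.{u} → V.{u}} (h : Elem N M j) (hN : Tr N) (hM : Tr M)
    {a : V.{u}} (ha : a ∈ N) : Sig N ↔ Sig M :=
  h.tf0 hN hM (P := Sig) D.sig ha

theorem repl_of_bound {M : Set V.{u}} (hM : Tr M)
    (hb : ∀ a ∈ M, ∀ G : V.{u} → V.{u}, (∀ x ∈ a, G x ∈ M) → ∃ c ∈ M, ∀ x ∈ a, G x ∈ c)
    (hs : ∀ c ∈ M, ∀ z, z ⊆ c → z ∈ M) : Repl M := by
  intro φ v _ a ha hf
  have h0 : ∀ x, ∃ y ∈ M, (∃ y ∈ M, Sat M φ (cons y (cons x v))) → Sat M φ (cons y (cons x v)) :=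
    fun x => by
      by_cases h : ∃ y ∈ M, Sat M φ (cons y (cons x v))
      · obtain ⟨y, hy, h⟩ := h
        exact ⟨y, hy, fun _ => h⟩
      · exact ⟨a, ha, fun h' => absurd h' h⟩
  choose G hG hG' using h0
  obtain ⟨c, hc, h1⟩ := hb a ha G fun x _ => hG x
  refine ⟨ZFSet.sep (fun y => ∃ x ∈ M, x ∈ a ∧ Sat M φ (cons y (cons x v))) c,
    hs c hc _ sep_subset, fun y hy => ?_⟩
  rw [mem_sep]
  refine ⟨fun h => h.2, fun h => ⟨?_, h⟩⟩
  obtain ⟨x, hx, hxa, h⟩ := h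
  rw [hf x hx hxa y hy _ (hG x) h (hG' x ⟨y, hy, h⟩)]
  exact h1 x hxa

theorem repl_univ : Repl (Set.univ : Set V.{u}) :=
  repl_of_bound tr_univ (fun a _ G _ => ⟨range fun x : a => G x.1, trivial,
    fun x hx => mem_range.2 ⟨⟨x, hx⟩, rfl⟩⟩) fun _ _ _ _ => trivial

theorem sig_univ : Sig (Set.univ : Set V.{u}) := fun x _ => by
  obtain ⟨f, -, hf⟩ := exists_inj (x := x) (y := (card x).ord.toZFSet) (by simp)
  exact ⟨_, trivial, f, trivial, isOrdinal_toZFSet _, hf⟩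

/-- the level `V_o` is a model of set theory -/
structure QQ (o : Ordinal.{u}) : Prop where
  lim : IsSuccLimit o
  omega : Ordinal.omega0 < o
  repl : Repl (vonNeumann o : Set V.{u})
  sig : Sig (vonNeumann o : Set V.{u})

theorem QQ.model {o : Ordinal.{u}} (h : QQ o) : IsModelZFC (vonNeumann o : Set V.{u}) := by
  have ht := tr_vn o
  have hl := h.lim.isSuccPrelimit
  refine ⟨fun x hx y hy e => ?_, ?_, fun x hx y hy => ?_, fun x hx => ?_, fun x hx => ?_, ?_,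
    fun φ v _ x hx => ?_, h.repl, fun x hx h1 h2 => ?_⟩
  · exact ZFSet.ext fun z => ⟨fun hz => (e z (ht _ hx _ hz)).1 hz,
      fun hz => (e z (ht _ hy _ hz)).2 hz⟩
  · rintro x hx ⟨y, -, hy⟩
    obtain ⟨z, hz, hmin⟩ := mem_wf.has_min {y | y ∈ x} ⟨y, hy⟩
    exact ⟨z, ht _ hx _ hz, hz, fun w _ hw hw' => hmin w hw' hw⟩
  · exact ⟨{x, y}, upair_mem_vn hl hx hy, fun z _ => mem_pair⟩
  · refine ⟨⋃₀ x, mem_vonNeumann.2 ((rank_sUnion_le x).trans_lt (mem_vonNeumann.1 hx)),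
      fun z _ => ?_⟩
    rw [mem_sUnion]
    exact ⟨fun ⟨y, h1, h2⟩ => ⟨y, ht _ hx _ h1, h1, h2⟩, fun ⟨y, _, h1, h2⟩ => ⟨y, h1, h2⟩⟩
  · refine ⟨powerset x, powerset_mem_vn hl hx, fun z hz => ?_⟩
    rw [mem_powerset]
    exact ⟨fun h w _ hw => h hw, fun h w hw => h w (ht _ hz _ hw) hw⟩
  · refine ⟨Ordinal.omega0.toZFSet, ord_mem_vn.2 h.omega, ⟨(0 : Ordinal.{u}).toZFSet,
      ord_mem_vn.2 h.lim.bot_lt, Ordinal.toZFSet_mem_toZFSet_iff.2 Ordinal.omega0_pos,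
      fun z _ => by simp⟩, fun x _ hx => ?_⟩
    obtain ⟨a, ha, rfl⟩ := Ordinal.mem_toZFSet_iff.1 hx
    have h1 := Ordinal.isSuccLimit_omega0.isSuccPrelimit.add_one_lt ha
    refine ⟨(a + 1).toZFSet, ord_mem_vn.2 (h1.trans h.omega),
      Ordinal.toZFSet_mem_toZFSet_iff.2 h1, fun z _ => ?_⟩
    rw [Ordinal.toZFSet_add_one, mem_insert_iff, or_comm]
  · exact ⟨ZFSet.sep (fun z => Sat (vonNeumann o : Set V.{u}) φ (cons z v)) x,
      mem_vonNeumann_of_subset sep_subset hx, fun z _ => mem_sep⟩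
  · have h0 : ∀ y : x, ∃ z, z ∈ y.1 := fun y => by
      obtain ⟨z, -, hz⟩ := h1 y.1 (ht _ hx _ y.2) y.2
      exact ⟨z, hz⟩
    choose g hg using h0
    refine ⟨range g, mem_vonNeumann_of_subset (y := ⋃₀ x) (fun z hz => ?_)
      (mem_vonNeumann.2 ((rank_sUnion_le x).trans_lt (mem_vonNeumann.1 hx))), fun y hy hyx => ?_⟩
    · obtain ⟨y, rfl⟩ := mem_range.1 hz
      exact mem_sUnion.2 ⟨y.1, y.2, hg y⟩
    · refine ⟨g ⟨y, hyx⟩, ht _ hy _ (hg ⟨y, hyx⟩), ⟨hg ⟨y, hyx⟩, mem_range_self _⟩, ?_⟩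
      rintro z hz ⟨h3, h4⟩
      obtain ⟨y', rfl⟩ := mem_range.1 h4
      by_contra hne
      refine h2 y hy y'.1 (ht _ hx _ y'.2) hyx y'.2 (fun e => hne ?_) _ hz h3 (hg y')
      congr 1
      exact Subtype.ext e.symm

theorem card_le_preBeth (x : V.{u}) : card x ≤ Cardinal.preBeth (rank x) := by
  rw [← card_vonNeumann]
  exact card_mono (subset_vonNeumann_self x)

theorem QQ.card_lt {o : Ordinal.{u}} (h : QQ o) {x : V.{u}} (hx : x ∈ vonNeumann o) :
    (card x).ord < o := by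
  obtain ⟨b, hb, f, -, h1, h2⟩ := h.sig x hx
  have h3 := h2.card_le
  rw [← h1.toZFSet_rank_eq, Ordinal.card_toZFSet] at h3
  exact (Cardinal.ord_le.2 h3).trans_lt (mem_vonNeumann.1 hb)

theorem QQ.two_pow {o : Ordinal.{u}} (h : QQ o) {c : Cardinal.{u}} (hc : c.ord < o) :
    ((2 : Cardinal.{u}) ^ c).ord < o := by
  have := h.card_lt (powerset_mem_vn h.lim.isSuccPrelimit (ord_mem_vn.2 hc))
  simpa using this

theorem QQ.mem_of_card {o : Ordinal.{u}} (h : QQ o) {M : V.{u}} (hM : M.IsTransitive)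
    (hc : (card M).ord < o) : M ∈ vonNeumann o := by
  rw [mem_vonNeumann]
  refine lt_trans ?_ (h.two_pow hc)
  rw [Cardinal.lt_ord]
  exact (rank_card_le hM).trans_lt (Cardinal.cantor _)

/-- inaccessibility -/
structure Inacc (α : Ordinal.{u}) : Prop where
  omega : Ordinal.omega0 < α
  reg : ∀ β < α, ∀ F : Ordinal.{u} → Ordinal.{u}, (∀ ξ < β, F ξ < α) → ∃ γ < α, ∀ ξ < β, F ξ < γ
  pow : ∀ β < α, ((2 : Cardinal.{u}) ^ β.card).ord < α

theorem Inacc.lim {α : Ordinal.{u}} (h : Inacc α) : IsSuccLimit α := by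
  rw [Ordinal.isSuccLimit_iff]
  refine ⟨(Ordinal.omega0_pos.trans h.omega).ne', isSuccPrelimit_of_succ_lt fun a ha => ?_⟩
  obtain ⟨γ, h1, h2⟩ := h.reg 1 (Ordinal.one_lt_omega0.trans h.omega) (fun _ => a) fun _ _ => ha
  exact (succ_le_of_lt (h2 0 zero_lt_one)).trans_lt h1

theorem Inacc.beth {α : Ordinal.{u}} (h : Inacc α) (β : Ordinal.{u}) :
    β < α → (Cardinal.preBeth β).ord < α := by
  induction β using Ordinal.limitRecOn with
  | zero => intro h0; simpa using h0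
  | add_one β ih =>
    intro hβ
    have := h.pow _ (ih ((lt_add_one β).trans hβ))
    rwa [Cardinal.card_ord, ← Cardinal.preBeth_add_one] at this
  | limit β hl ih =>
    intro hβ
    obtain ⟨γ, h1, h2⟩ := h.reg β hβ (fun ξ => (Cardinal.preBeth ξ).ord)
      fun ξ hξ => ih ξ hξ (hξ.trans hβ)
    refine lt_of_le_of_lt ?_ h1
    rw [Cardinal.ord_le, Cardinal.preBeth_limit hl.isSuccPrelimit]
    exact ciSup_le' fun a => Cardinal.ord_le.1 (h2 a.1 a.2).le

theorem Inacc.qq {α : Ordinal.{u}} (h : Inacc α) : QQ α := by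
  classical
  have hl := h.lim.isSuccPrelimit
  have h0 : ∀ x ∈ vonNeumann α, ∃ β < α, ∃ f, f ⊆ prod x β.toZFSet ∧ Inj x β.toZFSet f :=
    fun x hx => ⟨_, h.beth _ (mem_vonNeumann.1 hx), exists_inj (by simpa using card_le_preBeth x)⟩
  refine ⟨h.lim, h.omega, repl_of_bound (tr_vn α) (fun a ha G hG => ?_)
    fun c hc z hz => mem_vonNeumann_of_subset hz hc, fun x hx => ?_⟩
  · obtain ⟨β, hβ, f, -, hf⟩ := h0 a ha
    let F : Ordinal.{u} → Ordinal.{u} := fun ξ =>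
      if h : ∃ x ∈ a, pair x ξ.toZFSet ∈ f then rank (G h.choose) else 0
    obtain ⟨γ, h1, h2⟩ := h.reg β hβ F fun ξ _ => by
      by_cases h3 : ∃ x ∈ a, pair x ξ.toZFSet ∈ f
      · simp only [F, dif_pos h3]
        exact mem_vonNeumann.1 (hG _ h3.choose_spec.1)
      · simp only [F, dif_neg h3]
        exact h.lim.bot_lt
    refine ⟨vonNeumann γ, vonNeumann_mem_of_lt h1, fun x hx => mem_vonNeumann.2 ?_⟩
    obtain ⟨b, hb, h3⟩ := hf.1 x hx
    obtain ⟨ξ, hξ, rfl⟩ := Ordinal.mem_toZFSet_iff.1 hb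
    have h4 : ∃ x ∈ a, pair x ξ.toZFSet ∈ f := ⟨x, hx, h3⟩
    have h5 := h2 ξ hξ
    simp only [F, dif_pos h4] at h5
    rwa [hf.2 _ h4.choose_spec.1 x hx _ hb h4.choose_spec.2 h3] at h5
  · obtain ⟨β, hβ, f, h1, hf⟩ := h0 x hx
    exact ⟨_, ord_mem_vn.2 hβ, f, mem_vonNeumann_of_subset h1
      (prod_mem_vn hl hx (ord_mem_vn.2 hβ)), isOrdinal_toZFSet _, hf⟩

/-- reflection: arbitrarily large levels are elementary in the universe -/
theorem exists_qq (o : Ordinal.{u}) : ∃ β, o < β ∧ QQ β := by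
  classical
  have h0 : ∀ (φ : Fm) (v : ℕ → V.{u}), ∃ z, (∃ z, Sat Set.univ φ (cons z v)) →
      Sat Set.univ φ (cons z v) := fun φ v => by
    by_cases h : ∃ z, Sat Set.univ φ (cons z v)
    · exact ⟨_, fun _ => h.choose_spec⟩
    · exact ⟨∅, fun h' => absurd h' h⟩
  choose w hw using h0
  let W : Ordinal.{u} → Ordinal.{u} := fun γ =>
    ⨆ p : Fm × (ℕ → vonNeumann γ), (rank (w p.1 fun n => (p.2 n).1) + 1)
  let s : ℕ → Ordinal.{u} := fun n =>
    Nat.rec (max o Ordinal.omega0 + 1) (fun _ γ => max (W γ) (γ + 1)) n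
  have hs : StrictMono s := strictMono_nat_of_lt_succ fun n =>
    (lt_add_one (s n)).trans_le (le_max_right _ _)
  have hW : ∀ n, W (s n) ≤ s (n + 1) := fun n => le_max_left _ _
  let β : Ordinal.{u} := ⨆ n, s n
  have hsβ : ∀ n, s n < β := fun n => (hs (Nat.lt_succ_self n)).trans_le (Ordinal.le_iSup s n.succ)
  have hβ : ∀ a < β, ∃ n, a < s n := fun a ha => Ordinal.lt_iSup_iff.1 ha
  have h1 : max o Ordinal.omega0 < s 0 := lt_add_one _
  have hpos : ∀ n, (∅ : V.{u}) ∈ vonNeumann (s n) := fun n => by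
    rw [mem_vonNeumann, rank_empty]
    exact (bot_le.trans_lt h1).trans_le (hs.monotone (Nat.zero_le n))
  have hfin : ∀ (v : ℕ → V.{u}), Good (vonNeumann β : Set V.{u}) v → ∀ k, ∃ n, ∀ i < k,
      v i ∈ vonNeumann (s n) := by
    intro v hv k
    induction k with
    | zero => exact ⟨0, fun _ h => absurd h (Nat.not_lt_zero _)⟩
    | succ k ih =>
      obtain ⟨n, hn⟩ := ih
      obtain ⟨m, hm⟩ := hβ _ (mem_vonNeumann.1 (hv k))
      refine ⟨max n m, fun i hi => ?_⟩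
      rcases Nat.lt_succ_iff_lt_or_eq.1 hi with hi | rfl
      · exact vonNeumann_subset_of_le (hs.monotone (le_max_left _ _)) (hn i hi)
      · exact mem_vonNeumann.2 (hm.trans_le (hs.monotone (le_max_right _ _)))
  have hel : Elem (vonNeumann β : Set V.{u}) Set.univ id := by
    refine ⟨fun _ _ => trivial, fun φ => ?_⟩
    induction φ with
    | mem a b => intro v _; rfl
    | eq a b => intro v _; rfl
    | neg φ ih => intro v hv; exact not_congr (ih v hv)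
    | and φ ψ ih ih' => intro v hv; exact and_congr (ih v hv) (ih' v hv)
    | ex φ ih =>
      intro v hv
      simp only [Sat, id]
      constructor
      · rintro ⟨z, hz, h⟩
        exact ⟨z, trivial, (ih _ (Good.cons hv hz)).1 h⟩
      · rintro ⟨z, -, h⟩
        obtain ⟨n, hn⟩ := hfin v hv φ.fv
        let v' : ℕ → vonNeumann (s n) := fun i =>
          if hi : i < φ.fv then ⟨v i, hn i hi⟩ else ⟨∅, hpos n⟩
        have e : ∀ z, Sat Set.univ φ (cons z v) ↔ Sat Set.univ φ (cons z fun i => (v' i).1) :=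
          fun z => sat_congr _ _ _ _ fun i hi => by
            cases i with
            | zero => rfl
            | succ i => simp only [cons_succ, v', dif_pos (show i < φ.fv by omega)]
        have h2 := (e _).2 (hw φ _ ⟨z, (e z).1 h⟩)
        have h3 : w φ (fun i => (v' i).1) ∈ vonNeumann β := by
          rw [mem_vonNeumann]
          refine lt_trans ?_ ((hW n).trans_lt (hsβ (n + 1)))
          exact (lt_add_one _).trans_le (Ordinal.le_iSup
            (fun p : Fm × (ℕ → vonNeumann (s n)) => rank (w p.1 fun n => (p.2 n).1) + 1) (φ, v'))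
        exact ⟨_, h3, (ih _ (Good.cons hv h3)).2 h2⟩
  have h2 : (∅ : V.{u}) ∈ (vonNeumann β : Set V.{u}) := vn_sub (hsβ 0).le (hpos 0)
  refine ⟨β, ((le_max_left _ _).trans_lt h1).trans (hsβ 0), ?_,
    ((le_max_right _ _).trans_lt h1).trans (hsβ 0),
    (hel.repl (tr_vn _) tr_univ h2).2 repl_univ, (hel.sig (tr_vn _) tr_univ h2).2 sig_univ⟩
  rw [Ordinal.isSuccLimit_iff]
  refine ⟨(bot_le.trans_lt (hsβ 0)).ne', isSuccPrelimit_of_succ_lt fun a ha => ?_⟩
  obtain ⟨n, hn⟩ := hβ a ha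
  exact (succ_le_of_lt hn).trans_lt (hsβ n)

end Pool.Agent.H697Z.Gss
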