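import Pool.Agent.H697Z.GssRefl
import Pool.Agent.H697Z.GssQ

set_option autoImplicit false

universe u

namespace Pool.Agent.H697Z.Gss

open ZFSet Order

/-- `α` is sent arbitrarily high by embeddings whose target contains the level at the image -/
def Big (Ω α : Ordinal.{u}) : Prop :=
  ∀ θ < Ω, ∀ lam < Ω, ∃ θ', θ ≤ θ' ∧ ∃ (M : Set V.{u}) (j : V.{u} → V.{u}),
    M ⊆ (vonNeumann Ω : Set V.{u}) ∧ Tr M ∧ Elem (vonNeumann θ' : Set V.{u}) M j ∧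
    ∃ τ : Ordinal.{u}, j α.toZFSet = τ.toZFSet ∧ lam < τ ∧ (vonNeumann τ : Set V.{u}) ⊆ M

variable {Ω α : Ordinal.{u}}

theorem lt_ord_two_pow {a b : Ordinal.{u}} (h : a ≤ b) :
    a < ((2 : Cardinal.{u}) ^ b.card).ord :=
  Cardinal.lt_ord.2 ((Ordinal.card_le_card h).trans_lt (Cardinal.cantor _))

theorem QQ.pow (h : QQ Ω) {a : Ordinal.{u}} (ha : a < Ω) :
    ((2 : Cardinal.{u}) ^ a.card).ord < Ω :=
  h.two_pow ((Cardinal.ord_card_le a).trans_lt ha)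

theorem QQ.exists_card (h : QQ Ω) {a : Ordinal.{u}} (ha : a < Ω) :
    ∃ b, a < b ∧ b < Ω ∧ IsSuccLimit b ∧ ∀ β < b, β.card < b.card := by
  refine ⟨((2 : Cardinal.{u}) ^ (max a Ordinal.omega0).card).ord, lt_ord_two_pow (le_max_left _ _),
    h.pow (max_lt ha h.omega), Cardinal.isSuccLimit_ord ?_, fun β hβ => ?_⟩
  · refine le_trans ?_ (Cardinal.cantor _).le
    exact Ordinal.aleph0_le_card.2 (le_max_right _ _)
  · rw [Cardinal.card_ord]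
    exact Cardinal.lt_ord.1 hβ

theorem card_bound {θ β τ β' : Ordinal.{u}} {M : Set V.{u}} {j : V.{u} → V.{u}} (hM : Tr M)
    (hj : Elem (vonNeumann θ : Set V.{u}) M j) (hθ : α + 1 + 1 < θ) (hβ : β < α)
    (hc : α.card ≤ 2 ^ β.card) (e : j α.toZFSet = τ.toZFSet) (e' : j β.toZFSet = β'.toZFSet) :
    τ.card ≤ 2 ^ β'.card := by
  obtain ⟨f, h1, h2⟩ := exists_inj (x := α.toZFSet) (y := powerset β.toZFSet) (by simpa using hc)
  have h0 : α < θ := (lt_add_one _).trans ((lt_add_one _).trans hθ)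
  have h3 : rank (powerset β.toZFSet) ≤ α := by simpa using hβ
  have h4 : f ∈ vonNeumann θ := by
    refine mem_vonNeumann.2 ((rank_mono h1).trans_lt (rank_prod_le.trans_lt ?_))
    rwa [Ordinal.rank_toZFSet, max_eq_left h3]
  obtain ⟨h5, h6⟩ := (hj.tf4 (tr_vn _) hM (P := fun _ a b p f => Inj a p f ∧ ∀ z ∈ p, z ⊆ b)
    ((D.inj 0 2 3).and (D.ball (R := fun _ z v => z ⊆ v 1) 2 (D.sub 0 2)))
    (ord_mem_vn.2 h0) (ord_mem_vn.2 (hβ.trans h0)) (mem_vonNeumann.2 (h3.trans_lt h0)) h4).1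
    ⟨h2, fun z hz => mem_powerset.1 hz⟩
  have h7 := h5.card_le.trans (card_mono (y := powerset β'.toZFSet)
    fun z hz => mem_powerset.2 (e' ▸ h6 z hz))
  simpa [e] using h7

theorem Big.omega (hΩ : QQ Ω) (hα : α < Ω) (h : Big Ω α) : Ordinal.omega0 < α := by
  obtain ⟨θ, hθ, M, j, -, hM, hj, τ, e, h1, -⟩ :=
    h _ (hΩ.lim.isSuccPrelimit.add_one_lt hα) _ hΩ.omega
  obtain ⟨w, hw, h2⟩ := (hj.tf1 (tr_vn _) hM (P := fun _ a => ∃ w ∈ a, Lim w)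
    (D.bex (R := fun _ w _ => Lim w) 0 (D.lim 0)) (ord_mem_vn.2 ((lt_add_one _).trans_le hθ))).2
    ⟨_, e ▸ Ordinal.toZFSet_mem_toZFSet_iff.2 h1, lim_ord.2 Ordinal.isSuccLimit_omega0⟩
  obtain ⟨o, ho, rfl⟩ := Ordinal.mem_toZFSet_iff.1 hw
  exact (Ordinal.omega0_le_of_isSuccLimit (lim_ord.1 h2)).trans_lt ho

theorem Big.down (hΩ : QQ Ω) (hα : α < Ω) (h : Big Ω α) {β : Ordinal.{u}} (hβ : β < α)
    (hc : α.card ≤ 2 ^ β.card) : Big Ω β := by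
  intro θ hθ lam hlam
  have hl := hΩ.lim.isSuccPrelimit
  obtain ⟨θ', h1, M, j, h2, hM, hj, τ, e, h3, h4⟩ := h (max θ (α + 1 + 1 + 1))
    (max_lt hθ (hl.add_one_lt (hl.add_one_lt (hl.add_one_lt hα)))) _ (hΩ.pow (hΩ.pow hlam))
  have h5 : α + 1 + 1 < θ' := (lt_add_one _).trans_le ((le_max_right _ _).trans h1)
  have h0 : α < θ' := (lt_add_one _).trans ((lt_add_one _).trans h5)
  obtain ⟨β', e'⟩ := hj.ord_map (tr_vn _) hM (ord_mem_vn.2 (hβ.trans h0))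
  refine ⟨θ', (le_max_left _ _).trans h1, M, j, h2, hM, hj, β', e', not_le.1 fun h6 => ?_,
    (vn_sub (le_of_lt ?_)).trans h4⟩
  · have h7 := card_bound hM hj h5 hβ hc e e'
    have h8 := Ordinal.card_le_card h3.le
    simp only [Cardinal.card_ord] at h8
    exact (Cardinal.cantor _).not_ge (h8.trans (h7.trans
      (Cardinal.power_le_power_left two_ne_zero (Ordinal.card_le_card h6))))
  · rw [← Ordinal.toZFSet_mem_toZFSet_iff, ← e, ← e',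
      hj.mem_iff (ord_mem_vn.2 (hβ.trans h0)) (ord_mem_vn.2 h0)]
    exact Ordinal.toZFSet_mem_toZFSet_iff.2 hβ

theorem Big.not_inacc (hΩ : QQ Ω) (hα : α < Ω) (h : Big Ω α) {κ : Ordinal.{u}} (hκ : κ < Ω)
    (hmin : ∀ τ, κ < τ → τ < Ω → ¬ QQ τ) : ¬ Inacc α := by
  intro hi
  have hq := hi.qq
  obtain ⟨θ, hθ, M, j, h1, hM, hj, τ, e, h2, h3⟩ :=
    h _ (hΩ.lim.isSuccPrelimit.add_one_lt hα) _ (max_lt hκ hΩ.omega)
  have h4 : j (vonNeumann α) = vonNeumann τ := ZFSet.ext fun z =>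
    (hj.map_vn (tr_vn _) hM (vn_sub hθ) e z).trans ⟨fun h => h.2, fun h => ⟨h3 h, h⟩⟩
  have h0 : α < θ := (lt_add_one _).trans_le hθ
  have h5 := hj.restrict (tr_vn _) hM (a := vonNeumann α) (vonNeumann_mem_of_lt h0)
  rw [h4] at h5
  have h6 : (0 : Ordinal.{u}).toZFSet ∈ (vonNeumann α : Set V.{u}) := ord_mem_vn.2 hq.lim.bot_lt
  refine hmin τ ((le_max_left _ _).trans_lt h2) (ord_mem_vn.1 (h1 (e ▸ hj.map (ord_mem_vn.2 h0))))
    ⟨?_, (le_max_right _ _).trans_lt h2, (h5.repl (tr_vn _) (tr_vn _) h6).1 hq.repl,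
      (h5.sig (tr_vn _) (tr_vn _) h6).1 hq.sig⟩
  rw [← lim_ord, ← e]
  exact (hj.tf1 (tr_vn _) hM (P := fun _ a => Lim a) (D.lim 0) (ord_mem_vn.2 h0)).1
    (lim_ord.2 hq.lim)

theorem big_of_tgt (hΩ : QQ Ω) (hα : α < Ω) (hl : IsSuccLimit α)
    (h : ∀ lam < Ω, ∃ B ∈ vonNeumann Ω, Tgt (vonNeumann Ω : Set V.{u}) (vonNeumann α) B ∧
      lam < rank B) : Big Ω α := by
  intro θ hθ lam hlam
  obtain ⟨B, hB, ⟨h1, h2, g, -, h3⟩, h4⟩ := h lam hlam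
  obtain ⟨δ, hδ⟩ := h1.spec (tr_vn _) hB
  have h5 : δ < Ω := not_le.1 fun h =>
    mem_irrefl B ((hδ B).2 ⟨hB, vonNeumann_subset_of_le h hB⟩)
  obtain rfl : B = vonNeumann δ := ZFSet.ext fun z =>
    (hδ z).trans ⟨fun h => h.2, fun h => ⟨vn_sub h5.le h, h⟩⟩
  have h6 := lim_vn.1 h2
  have hω := Ordinal.omega0_le_of_isSuccLimit hl
  obtain ⟨e⟩ := ext_of_pres (fun x hx y hy => pair_mem_vn hl.isSuccPrelimit hx hy)
    (fun x hx y hy => pair_mem_vn h6.isSuccPrelimit hx hy)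
    (fun z hz => mem_vonNeumann_of_subset hz (vonNeumann_mem_of_lt hα))
    (fun z hz => mem_vonNeumann_of_subset hz hB)
    (fun n => ⟨(n : Ordinal.{u}).toZFSet,
      ord_mem_vn.2 ((Ordinal.natCast_lt_omega0 n).trans_le hω)⟩)
    (fun a b h => by
      simpa using Ordinal.toZFSet_injective (congrArg Subtype.val h)) h3
  have h7 : max θ (α + 1) < Ω := max_lt hθ (hΩ.lim.isSuccPrelimit.add_one_lt hα)
  have h8 : α < max θ (α + 1) := (lt_add_one _).trans_le (le_max_right _ _)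
  obtain ⟨M, j, hM, hj, h9, h10, h11⟩ := e.ult (isTransitive_vonNeumann (max θ (α + 1)))
    (vonNeumann_mem_of_lt h8) (isTransitive_vonNeumann _) (isTransitive_vonNeumann _)
    ⟨_, ord_mem_vn.2 h6.bot_lt⟩
  have hMΩ : M ∈ vonNeumann Ω := by
    refine hΩ.mem_of_card hM ?_
    set c := max (max (card (vonNeumann δ)) (card (vonNeumann (max θ (α + 1)))))
      (max (card (vonNeumann α)) Cardinal.aleph0) with hc
    have c0 : Cardinal.aleph0 ≤ c := (le_max_right _ _).trans (le_max_right _ _)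
    have c1 : c.ord < Ω := by
      simp only [hc, Cardinal.ord_strictMono.monotone.map_max, Cardinal.ord_aleph0]
      exact max_lt (max_lt (hΩ.card_lt hB) (hΩ.card_lt (vonNeumann_mem_of_lt h7)))
        (max_lt (hΩ.card_lt (vonNeumann_mem_of_lt hα)) hΩ.omega)
    refine lt_of_le_of_lt (Cardinal.ord_le_ord.2 (h11.trans ?_)) (hΩ.two_pow c1)
    calc _ ≤ (2 ^ c) * c ^ c := by
          refine mul_le_mul' (((le_max_left _ _).trans (le_max_left _ _)).trans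
            (Cardinal.cantor c).le) ?_
          refine (Cardinal.power_le_power_right ((le_max_right _ _).trans
            (le_max_left _ _))).trans (Cardinal.power_le_power_left ?_
              ((le_max_left _ _).trans (le_max_right _ _)))
          exact (Cardinal.aleph0_pos.trans_le c0).ne'
      _ = 2 ^ c := by
          rw [Cardinal.power_self_eq c0, Cardinal.mul_eq_self (c0.trans (Cardinal.cantor c).le)]
  have hMt : Tr (M : Set V.{u}) := tr_coe.2 hM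
  obtain ⟨τ, e'⟩ := hj.ord_map (tr_vn _) hMt (ord_mem_vn.2 h8)
  have h12 := hj.map_vn (tr_vn _) hMt (vn_sub (le_max_right _ _)) e'
  rw [h9] at h12
  have h13 : τ = δ := by
    refine le_antisymm (le_of_forall_lt fun a ha => ?_) (le_of_forall_lt fun a ha => ?_)
    · exact ord_mem_vn.1 ((h12 _).2 ⟨hMt _ (e' ▸ hj.map (ord_mem_vn.2 h8)) _
        (Ordinal.toZFSet_mem_toZFSet_iff.2 ha), ord_mem_vn.2 ha⟩)
    · exact ord_mem_vn.1 ((h12 _).1 (ord_mem_vn.2 ha)).2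
  subst h13
  exact ⟨_, le_max_left _ _, M, j, fun z hz => tr_vn _ _ hMΩ _ hz, hMt, hj, τ, e',
    by simpa using h4, fun z hz => h10 hz⟩

theorem exists_big {κ : Cardinal.{u}} (hκ : Supercompact κ) (hΩ : QQ Ω) (hκΩ : κ.ord < Ω) :
    ∃ α < κ.ord, Big Ω α := by
  by_contra hc
  have hl := hΩ.lim.isSuccPrelimit
  obtain ⟨φ, hφ⟩ : D fun (M : Set V.{u}) v => ∀ B ∈ M, B ∈ v 0 ↔ Tgt M (v 1) B := by
    repeat' first
      | exact D.mem _ _ | exact D.tgt _ _ | apply D.iff | apply D.all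
  have h0 : Good (vonNeumann Ω : Set V.{u}) fun _ => (0 : Ordinal.{u}).toZFSet :=
    fun _ => ord_mem_vn.2 hΩ.lim.bot_lt
  obtain ⟨b, hb, h1⟩ := hΩ.repl φ _ h0 (vonNeumann κ.ord) (vonNeumann_mem_of_lt hκΩ) (by
    intro x hx _ y hy y' hy' h h'
    rw [hφ _ _ (tr_vn _) ((h0.cons hx).cons hy)] at h
    rw [hφ _ _ (tr_vn _) ((h0.cons hx).cons hy')] at h'
    exact ZFSet.ext fun z => ⟨fun hz => (h' z (tr_vn _ _ hy _ hz)).2 ((h z (tr_vn _ _ hy _ hz)).1 hz),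
      fun hz => (h z (tr_vn _ _ hy' _ hz)).2 ((h' z (tr_vn _ _ hy' _ hz)).1 hz)⟩)
  obtain ⟨τ, h2, h3, h4, -⟩ := hΩ.exists_card (max_lt (mem_vonNeumann.1 hb) hκΩ)
  obtain ⟨α, h5, h6, j, hj, e⟩ := magidor hκ h4 ((le_max_right _ _).trans h2.le)
  have h7 := tgt_of_elem hl (h5.trans hκΩ) h3 h4 hj e
  have h8 := mt (big_of_tgt hΩ (h5.trans hκΩ) h6) fun h => hc ⟨α, h5, h⟩
  push Not at h8
  obtain ⟨lam, h9, h10⟩ := h8
  let s := ZFSet.sep (Tgt (vonNeumann Ω : Set V.{u}) (vonNeumann α)) (vonNeumann (lam + 1))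
  have hs : s ∈ (vonNeumann Ω : Set V.{u}) :=
    mem_vonNeumann_of_subset sep_subset (vonNeumann_mem_of_lt (hl.add_one_lt h9))
  have hs' : ∀ B ∈ (vonNeumann Ω : Set V.{u}),
      B ∈ s ↔ Tgt (vonNeumann Ω : Set V.{u}) (vonNeumann α) B := fun B hB => by
    rw [mem_sep]
    exact ⟨fun h => h.2, fun h => ⟨mem_vonNeumann.2 (lt_add_one_iff.2 (h10 B hB h)), h⟩⟩
  have hA : vonNeumann α ∈ (vonNeumann Ω : Set V.{u}) := vonNeumann_mem_of_lt (h5.trans hκΩ)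
  have h11 := (h1 s hs).2 ⟨_, hA, vonNeumann_mem_of_lt h5,
    (hφ _ _ (tr_vn _) ((h0.cons hA).cons hs)).2 hs'⟩
  have h12 := (rank_lt_of_mem ((hs' _ (vonNeumann_mem_of_lt h3)).2 h7)).trans (rank_lt_of_mem h11)
  rw [rank_vonNeumann] at h12
  exact (h12.trans ((le_max_left _ _).trans_lt h2)).false

theorem IsBij.card_le {x y f : V.{u}} (h : IsBij x y f) : card y ≤ card x := by
  choose g hg using fun b : y => (h.2 b.1 b.2).exists
  have hx : ∀ b, g b ∈ x := fun b => (pair_mem_prod.1 (h.1.1 (hg b))).1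
  rw [← Cardinal.lift_le.{u + 1}, ← cardinalMk_coe_sort, ← cardinalMk_coe_sort]
  refine Cardinal.mk_le_of_injective (f := fun b : y => (⟨g b, hx b⟩ : x)) fun b b' e => ?_
  have e' : g b = g b' := congrArg Subtype.val e
  exact Subtype.ext ((h.1.2 _ (hx b)).unique (hg b) (e' ▸ hg b'))

theorem cardIn_vn {o a : Ordinal.{u}} (h : a < o) (hc : ∀ β < a, β.card < a.card) :
    CardIn (vonNeumann o) a :=
  ⟨ord_mem_vn.2 h, fun β hβ ⟨_, _, hf⟩ => (hc β hβ).not_ge (by simpa using hf.card_le)⟩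

theorem D.basicClosed (i : ℕ) : D fun (_ : Set V.{u}) v => BasicClosed (v i) := by
  have : D fun (_ : Set V.{u}) v => ∀ x ∈ v i, ∀ y ∈ v i, (∃ z ∈ v i, z = {x, y}) ∧
      (∃ z ∈ v i, (∀ w ∈ z, ∃ a ∈ x, ∃ b ∈ y, w = ZFSet.pair a b) ∧
        ∀ a ∈ x, ∀ b ∈ y, ZFSet.pair a b ∈ z) ∧
      ∃ z ∈ v i, (∀ w ∈ z, w ∈ x ∧ w ∈ y) ∧ ∀ w ∈ x, w ∈ y → w ∈ z := by
    repeat' first
      | exact D.mem _ _ | exact D.upair _ _ _ | exact D.pair _ _ _ | exact D.pmem _ _ _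
      | apply D.and | apply D.bex | apply D.ball | apply D.imp
  refine this.congr fun _ v _ _ => forall₂_congr fun x _ => forall₂_congr fun y _ =>
    and_congr ⟨fun ⟨_, h1, h2⟩ => h2 ▸ h1, fun h => ⟨_, h, rfl⟩⟩ (and_congr ?_ ?_)
  · constructor
    · rintro ⟨z, h1, h2, h3⟩
      have : z = prod x y := ZFSet.ext fun w => ⟨fun h => mem_prod.2 (h2 w h), fun h => by
        obtain ⟨a, ha, b, hb, rfl⟩ := mem_prod.1 h
        exact h3 a ha b hb⟩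
      exact this ▸ h1
    · exact fun h => ⟨_, h, fun w hw => mem_prod.1 hw, fun a ha b hb => pair_mem_prod.2 ⟨ha, hb⟩⟩
  · constructor
    · rintro ⟨z, h1, h2, h3⟩
      have : z = x ∩ y := ZFSet.ext fun w => ⟨fun h => mem_inter.2 (h2 w h),
        fun h => h3 w (mem_inter.1 h).1 (mem_inter.1 h).2⟩
      exact this ▸ h1
    · exact fun h => ⟨_, h, fun w hw => mem_inter.1 hw, fun w h1 h2 => mem_inter.2 ⟨h1, h2⟩⟩

theorem Big.psiLarge (hΩ : QQ Ω) (hα : α < Ω) (h : Big Ω α) (hl : IsSuccLimit α)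
    (hc : ∀ β < α, β.card < α.card) : PsiLarge Ω PsiGss α := by
  refine ⟨cardIn_vn hα hc, fun η θ hη hθ h1 h2 h3 ξ hξ => ?_⟩
  have hΩl := hΩ.lim.isSuccPrelimit
  obtain ⟨lam, l1, l2, l3, l4⟩ := hΩ.exists_card (max_lt hξ (h2.trans h3))
  obtain ⟨θ0, h4, M, j, h5, hM, hj, τ, e, h6, h7⟩ :=
    h _ (hΩl.add_one_lt (hΩl.add_one_lt h3)) lam l2
  have h8 : θ + 1 < θ0 := (lt_add_one _).trans_le h4
  have ha : vonNeumann (θ + 1) ∈ (vonNeumann θ0 : Set V.{u}) := vonNeumann_mem_of_lt h8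
  have hj' := hj.restrict (tr_vn _) hM ha
  have hM0 := hj.trans_map (tr_vn _) hM ha (isTransitive_vonNeumann _)
  have hM0' := tr_coe.2 hM0
  have hM0Ω : j (vonNeumann (θ + 1)) ∈ vonNeumann Ω := h5 (hj.map ha)
  have mθ : θ.toZFSet ∈ (vonNeumann (θ + 1) : Set V.{u}) := ord_mem_vn.2 (lt_add_one _)
  have mη : η.toZFSet ∈ (vonNeumann (θ + 1) : Set V.{u}) :=
    ord_mem_vn.2 (h2.trans (lt_add_one _))
  have mα : α.toZFSet ∈ (vonNeumann (θ + 1) : Set V.{u}) :=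
    ord_mem_vn.2 (h1.trans (h2.trans (lt_add_one _)))
  obtain ⟨η', eη⟩ := hj'.ord_map (tr_vn _) hM0' mη
  obtain ⟨θ', eθ⟩ := hj'.ord_map (tr_vn _) hM0' mθ
  have hlim : ∀ {a a' : Ordinal.{u}}, a.toZFSet ∈ (vonNeumann (θ + 1) : Set V.{u}) →
      j a.toZFSet = a'.toZFSet → IsSuccLimit a → IsSuccLimit a' := fun ha e h => by
    rw [← lim_ord, ← e]
    exact (hj'.tf1 (tr_vn _) hM0' (P := fun _ a => Lim a) (D.lim 0) ha).1 (lim_ord.2 h)
  have o1 : τ < η' := by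
    rw [← Ordinal.toZFSet_mem_toZFSet_iff, ← e, ← eη, hj'.mem_iff mα mη]
    exact Ordinal.toZFSet_mem_toZFSet_iff.2 h1
  have o2 : η' < θ' := by
    rw [← Ordinal.toZFSet_mem_toZFSet_iff, ← eθ, ← eη, hj'.mem_iff mη mθ]
    exact Ordinal.toZFSet_mem_toZFSet_iff.2 h2
  have lθ := hlim mθ eθ hθ
  have e1 : j (vonNeumann θ) = j (vonNeumann (θ + 1)) ∩ vonNeumann θ' := ZFSet.ext fun z =>
    (hj'.map_vn (tr_vn _) hM0' (fun _ h => h) eθ z).trans mem_inter.symm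
  have mV : vonNeumann θ ∈ (vonNeumann (θ + 1) : Set V.{u}) := vonNeumann_mem_of_lt (lt_add_one _)
  have hord : ∀ o : Ordinal.{u},
      o.toZFSet ∈ j (vonNeumann (θ + 1)) ∩ vonNeumann θ' ↔ o < θ' := fun o => by
    rw [mem_inter, ord_mem_vn]
    exact ⟨fun h => h.2, fun h => ⟨hM0 _ (eθ ▸ hj'.map mθ)
      (Ordinal.toZFSet_mem_toZFSet_iff.2 h), h⟩⟩
  refine ⟨lam, ((le_max_left _ _).trans_lt l1).le, ((le_max_right _ _).trans_lt l1).le,
    cardIn_vn l2 l4, _, hM0Ω, hM0, j, ⟨graph (vonNeumann (θ + 1)) j, ?_, isFunc_graph hj'.1,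
      fun x hx => pair_mem_graph.2 ⟨hx, rfl⟩⟩, hj', τ, η', θ', e, eη, eθ, h6,
    ⟨fun z hz => (mem_inter.1 hz).2, hM0.inter (isTransitive_vonNeumann _),
      isTransitive_vonNeumann _, ?_, basicClosed_vn lθ.isSuccPrelimit,
      ⟨θ', lθ, hord, fun o => ord_mem_vn⟩, h6, o1, l3, hlim mα e hl, hlim mη eη hη,
      (hord _).2 (h6.trans (o1.trans o2)), (hord _).2 (o1.trans o2), (hord _).2 o2,
      cardIn_vn (h6.trans (o1.trans o2)) l4⟩, fun z hz => ?_⟩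
  · exact mem_vonNeumann_of_subset (graph_sub_prod hj'.1)
      (prod_mem_vn hΩl (vonNeumann_mem_of_lt (hΩl.add_one_lt h3)) hM0Ω)
  · rw [← e1]
    exact (hj'.tf1 (tr_vn _) hM0' (P := fun _ a => BasicClosed a) (D.basicClosed 0) mV).1
      (basicClosed_vn hθ.isSuccPrelimit)
  · refine mem_inter.2 ⟨?_, (mem_inter.1 hz).1⟩
    have h9 : α + 1 ≤ θ0 := (add_one_le_of_lt (h1.trans (h2.trans ((lt_add_one _).trans h8))))
    have h10 := (hj.map_vn (tr_vn _) hM (vn_sub h9) e z).2 ⟨h7 (mem_inter.1 hz).2,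
      (mem_inter.1 hz).2⟩
    exact hM0' _ (hj'.map (vonNeumann_mem_of_lt (h1.trans (h2.trans (lt_add_one _))))) _ h10

theorem big_of_psiLarge (hΩ : QQ Ω) (h : PsiLarge Ω PsiGss α) : Big Ω α := by
  intro θ hθ lam hlam
  obtain ⟨η, h1, h2, h3, -⟩ := hΩ.exists_card (ord_mem_vn.1 h.1.1)
  obtain ⟨θ1, h4, h5, h6, -⟩ := hΩ.exists_card (max_lt h2 hθ)
  obtain ⟨lam', l1, -, -, M, hM, hMt, j, -, hj, κ', η', θ', e, -, -, l2, hs, h7⟩ :=
    h.2 η θ1 h3 h6 h1 ((le_max_left _ _).trans_lt h4) h5 lam hlam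
  refine ⟨θ1 + 1, ((le_max_right _ _).trans h4.le).trans le_self_add, M, j,
    fun z hz => tr_vn _ _ hM _ hz, tr_coe.2 hMt, hj, κ', e, l1.trans_lt l2, fun z hz => ?_⟩
  have h8 : κ' < θ' := ord_mem_vn.1 (mem_inter.1 hs.2.2.2.2.2.2.2.2.2.2.2.2.1).2
  exact (mem_inter.1 (h7 (mem_inter.2 ⟨vonNeumann_subset_of_le h8.le hz, hz⟩))).1

theorem big_of_gss (hΩ : QQ Ω) (h : GloballySuperstrong Ω α) : Big Ω α := by
  intro θ hθ lam hlam
  have hα := ord_mem_vn.1 h.1.1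
  obtain ⟨M, j, h1, h2, h3, -, τ, e, h4, h5⟩ := h.2 (max lam (α + 1))
    (max_lt hlam (hΩ.lim.isSuccPrelimit.add_one_lt hα))
    ((lt_add_one _).trans_le (le_max_right _ _))
  exact ⟨Ω, hθ.le, M, j, h1, h2, h3, τ, e, (le_max_left _ _).trans_lt h4, h5⟩

theorem inacc_of_gss (hΩ : QQ Ω) (h : GloballySuperstrong Ω α) : Inacc α := by
  have hα := ord_mem_vn.1 h.1.1
  have hl := hΩ.lim.isSuccPrelimit
  refine ⟨(big_of_gss hΩ h).omega hΩ hα, fun β hβ F hF => ?_, fun β hβ => ?_⟩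
  · by_contra hc
    push Not at hc
    obtain ⟨M, j, -, hM, hj, hfix, τ, e, h4, -⟩ := h.2 _ (hl.add_one_lt hα) (lt_add_one _)
    let f := graph β.toZFSet fun x => (F (rank x)).toZFSet
    have hf0 : ∀ x ∈ β.toZFSet, (F (rank x)).toZFSet ∈ α.toZFSet := fun x hx =>
      Ordinal.toZFSet_mem_toZFSet_iff.2 (hF _ (by simpa using rank_lt_of_mem hx))
    have mα := ord_mem_vn.2 hα
    have mβ := ord_mem_vn.2 (hβ.trans hα)
    have mf : f ∈ vonNeumann Ω :=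
      mem_vonNeumann_of_subset (graph_sub_prod hf0) (prod_mem_vn hl mβ mα)
    obtain ⟨h5, h6⟩ := (hj.tf3 (tr_vn _) hM (P := fun _ a b f =>
      (∀ γ ∈ a, ∃ x ∈ b, ∃ y ∈ a, pair x y ∈ f ∧ γ ⊆ y) ∧
        ∀ x ∈ b, ∀ y ∈ a, ∀ y' ∈ a, pair x y ∈ f → pair x y' ∈ f → y = y') (by
          repeat' first
            | exact D.eq _ _ | exact D.sub _ _ | exact D.pmem _ _ _
            | apply D.and | apply D.bex | apply D.ball | apply D.imp) mα mβ mf).1 (by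
      refine ⟨fun γ hγ => ?_, fun x _ y _ y' _ h1 h2 => ?_⟩
      · obtain ⟨γ, h1, rfl⟩ := Ordinal.mem_toZFSet_iff.1 hγ
        obtain ⟨ξ, h2, h3⟩ := hc γ h1
        have h7 := Ordinal.toZFSet_mem_toZFSet_iff.2 h2
        exact ⟨_, h7, _, hf0 _ h7, pair_mem_graph.2 ⟨h7, rfl⟩,
          Ordinal.toZFSet_subset_toZFSet_iff.2 (by simpa using h3)⟩
      · exact (pair_mem_graph.1 h1).2.trans (pair_mem_graph.1 h2).2.symm)
    rw [e, hfix β hβ] at h5 h6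
    have h7 : α < τ := (lt_add_one _).trans h4
    obtain ⟨x, hx, y, hy, h8, h9⟩ := h5 _ (Ordinal.toZFSet_mem_toZFSet_iff.2 h7)
    obtain ⟨ξ, hξ, rfl⟩ := Ordinal.mem_toZFSet_iff.1 hx
    have h10 := (hj.tf3 (tr_vn _) hM (P := fun _ a b f => pair a b ∈ f) (D.pmem 0 1 2)
      (ord_mem_vn.2 (hξ.trans (hβ.trans hα))) (ord_mem_vn.2 ((hF ξ hξ).trans hα)) mf).1
      (pair_mem_graph.2 ⟨hx, by simp⟩)
    rw [hfix _ (hξ.trans hβ), hfix _ (hF ξ hξ)] at h10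
    rw [h6 _ hx _ hy _ (Ordinal.toZFSet_mem_toZFSet_iff.2 ((hF ξ hξ).trans h7)) h8 h10] at h9
    exact (hF ξ hξ).not_ge (Ordinal.toZFSet_subset_toZFSet_iff.1 h9)
  · by_contra hc
    have h1 : α.card ≤ 2 ^ β.card := by
      simpa using Ordinal.card_le_card (not_lt.1 hc)
    obtain ⟨M, j, -, hM, hj, hfix, τ, e, h4, -⟩ := h.2 _
      (max_lt (hl.add_one_lt hα) (hΩ.pow (hΩ.pow (hβ.trans hα))))
      ((lt_add_one _).trans_le (le_max_left _ _))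
    have h7 := card_bound hM hj (hl.add_one_lt (hl.add_one_lt hα)) hβ h1 e (hfix β hβ)
    have h8 := Ordinal.card_le_card ((le_max_right _ _).trans h4.le)
    simp only [Cardinal.card_ord] at h8
    exact (Cardinal.cantor _).not_ge (h8.trans h7)

theorem main {κ : Cardinal.{u}} (hκ : Supercompact κ) :
    ∃ Ω : Ordinal.{u}, κ.ord < Ω ∧ IsModelZFC (vonNeumann Ω : Set V.{u}) ∧
      (∀ μ, ¬ GloballySuperstrong Ω μ) ∧
      ∃ α < κ.ord, PsiLarge Ω PsiGss α ∧ (∀ β < α, ¬ PsiLarge Ω PsiGss β) ∧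
        SingularIn (vonNeumann Ω) α := by
  obtain ⟨Ω, ⟨h1, hΩ⟩, hmin⟩ := Ordinal.lt_wf.has_min {β | κ.ord < β ∧ QQ β} (exists_qq κ.ord)
  have hmin' : ∀ τ, κ.ord < τ → τ < Ω → ¬ QQ τ := fun τ h2 h3 h4 => hmin τ ⟨h2, h4⟩ h3
  refine ⟨Ω, h1, hΩ.model, fun μ hμ => (big_of_gss hΩ hμ).not_inacc hΩ (ord_mem_vn.1 hμ.1.1) h1
    hmin' (inacc_of_gss hΩ hμ), ?_⟩
  obtain ⟨α, ⟨h2, hα⟩, hm⟩ := Ordinal.lt_wf.has_min {α | α < κ.ord ∧ Big Ω α}
    (exists_big hκ hΩ h1)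
  have h3 := h2.trans h1
  have hm' : ∀ β < α, ¬ Big Ω β := fun β hβ h => hm β ⟨hβ.trans h2, h⟩ hβ
  have hpow : ∀ β < α, ((2 : Cardinal.{u}) ^ β.card).ord < α := fun β hβ => by
    by_contra hc
    exact hm' β hβ (hα.down hΩ h3 hβ (by simpa using Ordinal.card_le_card (not_lt.1 hc)))
  have hω := hα.omega hΩ h3
  have hl : IsSuccLimit α := by
    rw [Ordinal.isSuccLimit_iff]
    exact ⟨(Ordinal.omega0_pos.trans hω).ne', isSuccPrelimit_of_succ_lt fun a ha =>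
      (succ_le_of_lt (lt_ord_two_pow le_rfl)).trans_lt (hpow a ha)⟩
  refine ⟨α, h2, hα.psiLarge hΩ h3 hl fun β hβ => ?_,
    fun β hβ h => hm' β hβ (big_of_psiLarge hΩ h), ?_⟩
  · exact (Cardinal.cantor _).trans_le (Cardinal.ord_le.1 (hpow β hβ).le)
  · by_contra hc
    refine hα.not_inacc hΩ h3 h1 hmin' ⟨hω, fun β hβ F hF => ?_, hpow⟩
    by_contra hc'
    push Not at hc'
    have hf0 : ∀ x ∈ β.toZFSet, (F (rank x)).toZFSet ∈ α.toZFSet := fun x hx =>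
      Ordinal.toZFSet_mem_toZFSet_iff.2 (hF _ (by simpa using rank_lt_of_mem hx))
    refine hc ⟨β, hβ, graph β.toZFSet fun x => (F (rank x)).toZFSet,
      mem_vonNeumann_of_subset (graph_sub_prod hf0) (prod_mem_vn hΩ.lim.isSuccPrelimit
        (ord_mem_vn.2 (hβ.trans h3)) (ord_mem_vn.2 h3)), isFunc_graph hf0, fun γ hγ => ?_⟩
    obtain ⟨ξ, h4, h5⟩ := hc' γ hγ
    exact ⟨ξ, h4, F ξ, h5, pair_mem_graph.2 ⟨Ordinal.toZFSet_mem_toZFSet_iff.2 h4, by simp⟩⟩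

end Pool.Agent.H697Z.Gss
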