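import Pool.Agent.H697Z.GssUlt

set_option autoImplicit false

universe u

namespace Pool.Agent.H697Z.Gss

open ZFSet Order

/-- the finite list of properties which an extender has to preserve -/
def P : ℕ → Set V.{u} → V.{u} → V.{u} → V.{u} → V.{u} → Prop
  | 0, _, _, a, b, c => (∀ w ∈ a, w ∈ b ∧ w ∈ c) ∧ ∀ w ∈ b, w ∈ c → w ∈ a
  | 1, _, A, a, b, _ => ∀ w ∈ A, w ∈ a ↔ ¬ w ∈ b
  | 2, _, A, a, _, _ => ∀ x ∈ A, ∃ y ∈ A, pair x y ∈ a ∧ ∀ y' ∈ A, pair x y' ∈ a → y' = y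
  | 3, _, A, a, b, c => ∀ x ∈ A, ∀ y ∈ A, pair x y ∈ b → (x ∈ a ↔ y ∈ c)
  | 4, _, A, a, b, c => ∀ x ∈ A, ∀ y ∈ A, ∀ z ∈ A, pair x y ∈ c → pair y z ∈ b → pair x z ∈ a
  | 5, _, A, a, _, _ => ∀ x ∈ A, pair x x ∈ a
  | 6, _, A, a, b, c => ∀ x ∈ A, ∀ y ∈ A, ∀ z ∈ A, pair x y ∈ b → pair x z ∈ c → (x ∈ a ↔ y = z)
  | 7, _, A, a, b, c => ∀ x ∈ A, ∀ y ∈ A, ∀ z ∈ A, pair x y ∈ b → pair x z ∈ c → (x ∈ a ↔ y ∈ z)
  | 8, _, A, a, _, _ => ∀ x ∈ A, ∀ y ∈ A, ∀ z ∈ A, z = pair x y → pair z x ∈ a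
  | 9, _, A, a, _, _ => ∀ x ∈ A, ∀ y ∈ A, ∀ z ∈ A, z = pair x y → pair z y ∈ a
  | 10, M, A, a, _, _ => ∀ z ∈ M, z ⊆ A → (∃ x ∈ z, x = x) → ∃ y ∈ z, ∀ x ∈ z, ¬ pair x y ∈ a
  | _ + 11, _, A, _, _, _ => A = A

theorem D.P (n k0 k1 k2 k3 : ℕ) :
    D fun (M : Set V.{u}) v => P n M (v k0) (v k1) (v k2) (v k3) := by
  match n with
  | 0 | 1 | 2 | 3 | 4 | 5 | 6 | 7 | 8 | 9 | 10 | _ + 11 =>
    dsimp only [Gss.P]
    repeat' first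
      | exact D.mem _ _ | exact D.eq _ _ | exact D.sub _ _ | exact D.pmem _ _ _
      | exact D.pair _ _ _
      | apply D.and | apply D.iff | apply D.bex | apply D.ball | apply D.ex | apply D.all
      | apply D.not | apply D.imp

theorem P_congr {M M' : Set V.{u}} {A a b c : V.{u}} (h : ∀ z, z ⊆ A → z ∈ M') (n : ℕ)
    (hP : P n M' A a b c) : P n M A a b c := by
  match n with
  | 0 | 1 | 2 | 3 | 4 | 5 | 6 | 7 | 8 | 9 | _ + 11 => exact hP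
  | 10 => exact fun z _ hz => hP z (h z hz) hz

theorem D.forall_lt {Q : ℕ → Set V.{u} → (ℕ → V.{u}) → Prop} (h : ∀ n, D (Q n)) :
    ∀ k, D fun M v => ∀ n < k, Q n M v
  | 0 => (D.eq 0 0).congr fun _ _ _ _ => by simp
  | k + 1 => ((D.forall_lt h k).and (h k)).congr fun _ _ _ _ =>
      Nat.forall_lt_succ_right.symm

/-- `g` codes a map from the subsets of `A` to the subsets of `B` preserving the list -/
def Pres (M : Set V.{u}) (A B g : V.{u}) : Prop :=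
  (∀ a ∈ M, a ⊆ A → ∃ a' ∈ M, a' ⊆ B ∧ pair a a' ∈ g) ∧ pair A B ∈ g ∧
  ∀ a ∈ M, ∀ b ∈ M, ∀ c ∈ M, ∀ a' ∈ M, ∀ b' ∈ M, ∀ c' ∈ M,
    pair a a' ∈ g → pair b b' ∈ g → pair c c' ∈ g →
    ∀ n < 11, P n M A a b c → P n M B a' b' c'

/-- `B` is a limit level which is the target of an extender on `A` -/
def Tgt (M : Set V.{u}) (A B : V.{u}) : Prop :=
  LevIn M B ∧ Lim B ∧ ∃ g ∈ M, Pres M A B g

theorem D.tgt (i j : ℕ) : D fun (M : Set V.{u}) v => Tgt M (v i) (v j) := by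
  unfold Tgt Pres
  repeat' first
    | exact D.lev _ | exact D.lim _ | exact D.P _ _ _ _ _
    | exact D.sub _ _ | exact D.pmem _ _ _
    | apply D.and | apply D.ex | apply D.all
    | apply D.imp | apply D.forall_lt | intro _

theorem tgt_of_elem {Ω α τ : Ordinal.{u}} (hΩ : IsSuccPrelimit Ω) (hα : α < Ω) (hτ : τ < Ω)
    (hτ' : IsSuccLimit τ) {j : V.{u} → V.{u}}
    (hj : Elem (vonNeumann (α + 1) : Set V.{u}) (vonNeumann (τ + 1) : Set V.{u}) j)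
    (e : j (vonNeumann α) = vonNeumann τ) :
    Tgt (vonNeumann Ω : Set V.{u}) (vonNeumann α) (vonNeumann τ) := by
  have h1 : ∀ (o : Ordinal.{u}) z, z ∈ (vonNeumann (o + 1) : Set V.{u}) ↔ z ⊆ vonNeumann o :=
    fun o z => by rw [SetLike.mem_coe, vonNeumann_add_one, mem_powerset]
  have h2 : ∀ o < Ω, ∀ z, z ⊆ vonNeumann o → z ∈ (vonNeumann Ω : Set V.{u}) :=
    fun o ho z hz => mem_vonNeumann_of_subset hz (vonNeumann_mem_of_lt ho)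
  refine ⟨levIn_vn (vn_sub (add_one_le_of_lt hτ)), lim_vn.2 hτ',
    graph (vonNeumann (α + 1)) j, ?_, ?_, ?_, ?_⟩
  · exact mem_vonNeumann_of_subset (graph_sub_prod hj.1) (prod_mem_vn hΩ
      (vonNeumann_mem_of_lt (hΩ.add_one_lt hα)) (vonNeumann_mem_of_lt (hΩ.add_one_lt hτ)))
  · intro a _ ha
    have := (h1 _ _).1 (hj.map ((h1 _ _).2 ha))
    exact ⟨j a, h2 _ hτ _ this, this, pair_mem_graph.2 ⟨(h1 _ _).2 ha, rfl⟩⟩
  · exact pair_mem_graph.2 ⟨vonNeumann_mem_of_lt (lt_add_one α), e.symm⟩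
  · intro a _ b _ c _ a' _ b' _ c' _ ha hb hc n _ hP
    obtain ⟨ha1, rfl⟩ := pair_mem_graph.1 ha
    obtain ⟨hb1, rfl⟩ := pair_mem_graph.1 hb
    obtain ⟨hc1, rfl⟩ := pair_mem_graph.1 hc
    have := (hj.tf4 (tr_vn _) (tr_vn _) (P := P n) (D.P n 0 1 2 3)
      (vonNeumann_mem_of_lt (lt_add_one α)) ha1 hb1 hc1).1 (P_congr (h2 _ hα) n hP)
    rw [e] at this
    exact P_congr (fun z hz => (h1 _ _).2 hz) n this

section build
variable {A : V.{u}}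

/-- the set coded by a subset of the type of elements -/
def cS (S : Set A) : V.{u} := ZFSet.sep (fun x => ∃ h : x ∈ A, (⟨x, h⟩ : A) ∈ S) A

theorem mem_cS {S : Set A} {x : A} : x.1 ∈ cS S ↔ x ∈ S := by
  rw [cS, mem_sep]
  exact ⟨fun ⟨_, _, h⟩ => h, fun h => ⟨x.2, x.2, h⟩⟩

theorem cS_sub (S : Set A) : cS S ⊆ A := sep_subset

/-- the graph of a function on the type of elements -/
def cF (g : A → A) : V.{u} := ZFSet.sep (fun p => ∃ x : A, p = pair x.1 (g x).1) A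

theorem cF_sub (g : A → A) : cF g ⊆ A := sep_subset

theorem mem_cF (hA : ∀ x ∈ A, ∀ y ∈ A, pair x y ∈ A) {g : A → A} {x y : A} :
    pair x.1 y.1 ∈ cF g ↔ y = g x := by
  rw [cF, mem_sep]
  constructor
  · rintro ⟨_, z, h⟩
    obtain ⟨h1, h2⟩ := pair_inj.1 h
    obtain rfl : x = z := Subtype.ext h1
    exact Subtype.ext h2
  · rintro rfl
    exact ⟨hA _ x.2 _ (g x).2, x, rfl⟩

end build

theorem ext_of_pres {M : Set V.{u}} {A B g : V.{u}} (hA : ∀ x ∈ A, ∀ y ∈ A, pair x y ∈ A)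
    (hB : ∀ x ∈ B, ∀ y ∈ B, pair x y ∈ B) (hAM : ∀ z, z ⊆ A → z ∈ M) (hBM : ∀ z, z ⊆ B → z ∈ M)
    (nat : ℕ → A) (hnat : Function.Injective nat) (h : Pres M A B g) : Nonempty (Ext A B) := by
  classical
  obtain ⟨h1, h2, h3⟩ := h
  choose J hJM hJB hJg using fun (a : V.{u}) (ha : a ⊆ A) => h1 a (hAM a ha) ha
  have T : ∀ n < 11, ∀ a ha b hb c hc, P n M A a b c → P n M B (J a ha) (J b hb) (J c hc) :=
    fun n hn a ha b hb c hc => h3 a (hAM a ha) b (hAM b hb) c (hAM c hc) _ (hJM a ha) _ (hJM b hb)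
      _ (hJM c hc) (hJg a ha) (hJg b hb) (hJg c hc) n hn
  let JS : Set A → V.{u} := fun S => J (cS S) (cS_sub S)
  let JF : (A → A) → V.{u} := fun f => J (cF f) (cF_sub f)
  have hinter : ∀ S S' (b : B), b.1 ∈ JS (S ∩ S') ↔ b.1 ∈ JS S ∧ b.1 ∈ JS S' := by
    intro S S' b
    have := T 0 (by norm_num) _ (cS_sub (S ∩ S')) _ (cS_sub S) _ (cS_sub S')
      ⟨fun w hw => by
        have := (mem_cS (x := ⟨w, cS_sub _ hw⟩)).1 hw
        exact ⟨(mem_cS (x := ⟨w, cS_sub _ hw⟩)).2 this.1,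
          (mem_cS (x := ⟨w, cS_sub _ hw⟩)).2 this.2⟩,
      fun w hw hw' => (mem_cS (x := ⟨w, cS_sub _ hw⟩)).2
        ⟨(mem_cS (x := ⟨w, cS_sub _ hw⟩)).1 hw, (mem_cS (x := ⟨w, cS_sub _ hw⟩)).1 hw'⟩⟩
    exact ⟨this.1 _, fun h => this.2 _ h.1 h.2⟩
  have hcompl : ∀ S (b : B), b.1 ∈ JS Sᶜ ↔ ¬ b.1 ∈ JS S := by
    intro S b
    exact T 1 (by norm_num) _ (cS_sub Sᶜ) _ (cS_sub S) _ (cS_sub S)
      (fun w hw => by rw [mem_cS (x := ⟨w, hw⟩), mem_cS (x := ⟨w, hw⟩)]; rfl) b.1 b.2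
  have huniv : ∀ b : B, b.1 ∈ JS Set.univ := by
    intro b
    have := h3 _ (hAM _ (cS_sub Set.univ)) A (hAM A fun _ h => h) A (hAM A fun _ h => h)
      _ (hJM _ (cS_sub Set.univ)) B (hBM B fun _ h => h) B (hBM B fun _ h => h)
      (hJg _ _) h2 h2 0 (by norm_num)
      ⟨fun w hw => ⟨cS_sub _ hw, cS_sub _ hw⟩,
        fun w hw _ => (mem_cS (x := ⟨w, hw⟩)).2 trivial⟩
    exact this.2 _ b.2 b.2
  let F : B → Filter A := fun b =>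
    { sets := {S | b.1 ∈ JS S}
      univ_sets := huniv b
      sets_of_superset := fun {S S'} hS hSS' => by
        have : b.1 ∈ JS (S ∩ S') := by rwa [Set.inter_eq_left.2 hSS']
        exact ((hinter S S' b).1 this).2
      inter_sets := fun {S S'} hS hS' => (hinter S S' b).2 ⟨hS, hS'⟩ }
  let U : B → Ultrafilter A := fun b => Ultrafilter.ofComplNotMemIff (F b) fun S => by
    change ¬ b.1 ∈ JS Sᶜ ↔ b.1 ∈ JS S
    rw [hcompl, not_not]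
  have hU : ∀ b S, S ∈ U b ↔ b.1 ∈ JS S := fun _ _ => Iff.rfl
  have hfun : ∀ (f : A → A) (b : B), ∃ c : B, pair b.1 c.1 ∈ JF f ∧
      ∀ c' : B, pair b.1 c'.1 ∈ JF f → c' = c := by
    intro f b
    obtain ⟨c, hc, h4, h5⟩ := T 2 (by norm_num) _ (cF_sub f) _ (cF_sub f) _ (cF_sub f)
      (fun x hx => ⟨_, (f ⟨x, hx⟩).2, (mem_cF hA (x := ⟨x, hx⟩)).2 rfl, fun y hy h =>
        congrArg Subtype.val ((mem_cF hA (x := ⟨x, hx⟩) (y := ⟨y, hy⟩)).1 h)⟩) b.1 b.2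
    exact ⟨⟨c, hc⟩, h4, fun c' h => Subtype.ext (h5 _ c'.2 h)⟩
  choose st hst hst' using hfun
  let p : A → A := fun z => if h : ∃ x y : A, z.1 = pair x.1 y.1 then h.choose else z
  let q : A → A := fun z => if h : ∃ y x : A, z.1 = pair x.1 y.1 then h.choose else z
  have hp : ∀ z x y : A, z.1 = pair x.1 y.1 → x = p z := by
    intro z x y h
    have h' : ∃ x y : A, z.1 = pair x.1 y.1 := ⟨x, y, h⟩
    simp only [p, dif_pos h']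
    obtain ⟨y', h4⟩ := h'.choose_spec
    exact Subtype.ext (pair_inj.1 (h.symm.trans h4)).1
  have hq : ∀ z x y : A, z.1 = pair x.1 y.1 → y = q z := by
    intro z x y h
    have h' : ∃ y x : A, z.1 = pair x.1 y.1 := ⟨y, x, h⟩
    simp only [q, dif_pos h']
    obtain ⟨y', h4⟩ := h'.choose_spec
    exact Subtype.ext (pair_inj.1 (h.symm.trans h4)).2
  refine ⟨⟨U, st, fun f b S => ?_, fun f k b => ?_, fun b => ?_, fun f k b => ?_,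
    fun f k b => ?_, fun x y => ⟨_, hA _ x.2 _ y.2⟩, fun x y => ⟨_, hB _ x.2 _ y.2⟩, p, q,
    fun x y => (hp _ x y rfl).symm, fun x y => (hq _ x y rfl).symm, fun a b => ?_,
    fun a b => ?_, fun R hR => ?_, nat, hnat⟩⟩
  · refine (T 3 (by norm_num) _ (cS_sub (f ⁻¹' S)) _ (cF_sub f) _ (cS_sub S)
      (fun x hx y hy h => ?_) b.1 b.2 _ (st f b).2 (hst f b)).symm
    rw [mem_cS (x := ⟨x, hx⟩), mem_cS (x := ⟨y, hy⟩),
      (mem_cF hA (x := ⟨x, hx⟩) (y := ⟨y, hy⟩)).1 h]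
    rfl
  · refine (hst' _ _ _ (T 4 (by norm_num) _ (cF_sub (f ∘ k)) _ (cF_sub f) _ (cF_sub k)
      (fun x hx y hy z hz h h' => ?_) b.1 b.2 _ (st k b).2 _ (st f (st k b)).2
      (hst k b) (hst f _))).symm
    rw [mem_cF hA (x := ⟨x, hx⟩) (y := ⟨z, hz⟩), (mem_cF hA (x := ⟨y, hy⟩) (y := ⟨z, hz⟩)).1 h',
      (mem_cF hA (x := ⟨x, hx⟩) (y := ⟨y, hy⟩)).1 h]
    rfl
  · exact (hst' _ _ _ (T 5 (by norm_num) _ (cF_sub id) _ (cF_sub id) _ (cF_sub id)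
      (fun x hx => (mem_cF hA (x := ⟨x, hx⟩) (y := ⟨x, hx⟩)).2 rfl) b.1 b.2)).symm
  · refine Subtype.ext_iff.trans (T 6 (by norm_num) _ (cS_sub {x | f x = k x}) _ (cF_sub f) _
      (cF_sub k) (fun x hx y hy z hz h h' => ?_) b.1 b.2 _ (st f b).2 _ (st k b).2
      (hst f b) (hst k b)).symm
    rw [mem_cS (x := ⟨x, hx⟩), Set.mem_ofPred_eq,
      ← (mem_cF hA (x := ⟨x, hx⟩) (y := ⟨z, hz⟩)).1 h',
      ← (mem_cF hA (x := ⟨x, hx⟩) (y := ⟨y, hy⟩)).1 h]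
    exact Subtype.ext_iff
  · refine (T 7 (by norm_num) _ (cS_sub {x | (f x).1 ∈ (k x).1}) _ (cF_sub f) _
      (cF_sub k) (fun x hx y hy z hz h h' => ?_) b.1 b.2 _ (st f b).2 _ (st k b).2
      (hst f b) (hst k b)).symm
    rw [mem_cS (x := ⟨x, hx⟩), Set.mem_ofPred_eq,
      ← (mem_cF hA (x := ⟨x, hx⟩) (y := ⟨z, hz⟩)).1 h',
      ← (mem_cF hA (x := ⟨x, hx⟩) (y := ⟨y, hy⟩)).1 h]
  · exact (hst' _ _ _ (T 8 (by norm_num) _ (cF_sub p) _ (cF_sub p) _ (cF_sub p)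
      (fun x hx y hy z hz h => (mem_cF hA (x := ⟨z, hz⟩) (y := ⟨x, hx⟩)).2
        (hp ⟨z, hz⟩ ⟨x, hx⟩ ⟨y, hy⟩ h)) a.1 a.2 b.1 b.2 _ (hB _ a.2 _ b.2) rfl)).symm
  · exact (hst' _ _ _ (T 9 (by norm_num) _ (cF_sub q) _ (cF_sub q) _ (cF_sub q)
      (fun x hx y hy z hz h => (mem_cF hA (x := ⟨z, hz⟩) (y := ⟨y, hy⟩)).2
        (hq ⟨z, hz⟩ ⟨x, hx⟩ ⟨y, hy⟩ h)) a.1 a.2 b.1 b.2 _ (hB _ a.2 _ b.2) rfl)).symm
  · have h4 := T 10 (by norm_num) _ (cS_sub R) _ (cS_sub R) _ (cS_sub R) (by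
      rintro z _ hz ⟨x, hx, -⟩
      obtain ⟨y, hy, hmin⟩ := hR.has_min {a : A | a.1 ∈ z} ⟨⟨x, hz hx⟩, hx⟩
      exact ⟨y.1, hy, fun w hw h => hmin ⟨w, hz hw⟩ hw
        ((mem_cS (x := ⟨_, hA _ (hz hw) _ y.2⟩)).1 h)⟩)
    rw [WellFounded.wellFounded_iff_has_min]
    rintro S ⟨b, hb⟩
    obtain ⟨y, hy, hmin⟩ := h4 (cS S) (hBM _ (cS_sub S)) (cS_sub S) ⟨b.1, mem_cS.2 hb, rfl⟩
    exact ⟨⟨y, cS_sub S hy⟩, (mem_cS (x := ⟨y, cS_sub S hy⟩)).1 hy,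
      fun x hx h => hmin x.1 (mem_cS.2 hx) h⟩

end Pool.Agent.H697Z.Gss
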