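import Pool.Agent.H697Z.GssPre

set_option autoImplicit false

universe u

namespace Pool.Agent.H697Z.Gss

open ZFSet Order

section ultra
variable {κ : Cardinal.{u}} {I : Type u} {U : Ultrafilter {x : Set I // Cardinal.mk x < κ}}

theorem count_inter (h0 : Cardinal.aleph0 < κ)
    (hc : ∀ S : Set (Set {x : Set I // Cardinal.mk x < κ}), Cardinal.mk S < κ →
      (∀ s ∈ S, s ∈ U) → ⋂₀ S ∈ U) {ι : Type} [Countable ι]
    (s : ι → Set {x : Set I // Cardinal.mk x < κ}) (hs : ∀ i, s i ∈ U) :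
    {x | ∀ i, x ∈ s i} ∈ U := by
  have := hc (Set.range s) (((Set.countable_range s).le_aleph0).trans_lt h0)
    (by rintro _ ⟨i, rfl⟩; exact hs i)
  refine Filter.mem_of_superset this fun x hx i => hx _ ⟨i, rfl⟩

theorem normal' [Nonempty I]
    (hn : ∀ f : {x : Set I // Cardinal.mk x < κ} → I, {x | f x ∈ x.1} ∈ U →
      ∃ i : I, {x | f x = i} ∈ U) (R : {x : Set I // Cardinal.mk x < κ} → I → Prop)
    (h : {x | ∃ i ∈ x.1, R x i} ∈ U) : ∃ i, {x | R x i} ∈ U := by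
  have h0 : ∀ x, ∃ i : I, (∃ i ∈ x.1, R x i) → i ∈ x.1 ∧ R x i := fun x => by
    by_cases hx : ∃ i ∈ x.1, R x i
    · exact ⟨_, fun _ => hx.choose_spec⟩
    · exact ⟨Classical.arbitrary I, fun h => absurd h hx⟩
  choose f hf using h0
  obtain ⟨i, hi⟩ := hn f (Filter.mem_of_superset h fun x hx => (hf x hx).1)
  refine ⟨i, Filter.mem_of_superset (Filter.inter_mem h hi) ?_⟩
  rintro x ⟨h1, rfl⟩
  exact (hf x h1).2

end ultra

theorem exists_hull {κ : Cardinal.{u}} (hκ : Supercompact κ) {I : Type u} [Nonempty I]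
    (hI : κ ≤ Cardinal.mk I) (e : I → V.{u}) {Y B : V.{u}} (he : ∀ z ∈ Y, ∃ i, e i = z)
    (einj : Function.Injective e) (hBY : ∀ z, z ⊆ B → z ∈ Y) :
    ∃ x : Set I, Cardinal.mk x < κ ∧ (∃ k ∈ x, e k = B) ∧
      (∀ (φ : Fm) (v : ℕ → I), (∀ n, v n ∈ x) →
        (∃ z ∈ Y, Sat (Y : Set V.{u}) φ (cons z fun n => e (v n))) →
        ∃ i ∈ x, Sat (Y : Set V.{u}) φ (cons (e i) fun n => e (v n))) ∧
      ∀ s : Set I, (∀ i ∈ s, e i ∈ B) → ∃ k ∈ x, ∀ i ∈ x, e i ∈ e k ↔ i ∈ s := by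
  obtain ⟨U, hc, hf, hn⟩ := hκ.2 I hI
  have hT : {x : {x : Set I // Cardinal.mk x < κ} | ∀ (φ : Fm) (v : ℕ → I), (∀ n, v n ∈ x.1) →
        (∃ z ∈ Y, Sat (Y : Set V.{u}) φ (cons z fun n => e (v n))) →
        ∃ i ∈ x.1, Sat (Y : Set V.{u}) φ (cons (e i) fun n => e (v n))} ∈ U := by
    refine count_inter hκ.1 hc (fun φ : Fm => {x | ∀ v : ℕ → I, (∀ n, v n ∈ x.1) →
        (∃ z ∈ Y, Sat (Y : Set V.{u}) φ (cons z fun n => e (v n))) →
        ∃ i ∈ x.1, Sat (Y : Set V.{u}) φ (cons (e i) fun n => e (v n))}) fun φ => ?_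
    by_contra h1
    have h2 := Ultrafilter.compl_mem_iff_notMem.2 h1
    have h0 : ∀ x : {x : Set I // Cardinal.mk x < κ}, ∃ v : ℕ → I,
        x ∈ {x : {x : Set I // Cardinal.mk x < κ} | ∀ v : ℕ → I, (∀ n, v n ∈ x.1) →
        (∃ z ∈ Y, Sat (Y : Set V.{u}) φ (cons z fun n => e (v n))) →
        ∃ i ∈ x.1, Sat (Y : Set V.{u}) φ (cons (e i) fun n => e (v n))}ᶜ →
        (∀ n, v n ∈ x.1) ∧ (∃ z ∈ Y, Sat (Y : Set V.{u}) φ (cons z fun n => e (v n))) ∧
        ¬ ∃ i ∈ x.1, Sat (Y : Set V.{u}) φ (cons (e i) fun n => e (v n)) := by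
      intro x
      by_contra h3
      push Not at h3
      exact (h3 fun _ => Classical.arbitrary I).1 fun v h4 h5 => (h3 v).2 h4 h5
    choose v hv using h0
    choose w hw using fun n => hn (fun x => v x n)
      (Filter.mem_of_superset h2 fun x hx => (hv x hx).1 n)
    have h3 := Filter.inter_mem h2 (count_inter hκ.1 hc _ hw)
    have h4 : ∀ x : {x : Set I // Cardinal.mk x < κ}, (∀ n, x ∈ {x | v x n = w n}) → v x = w :=
      fun x hx => funext hx
    obtain ⟨x, h5, h6⟩ := Ultrafilter.nonempty_of_mem h3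
    obtain ⟨z, hz, h7⟩ := (hv x h5).2.1
    obtain ⟨k, rfl⟩ := he z hz
    obtain ⟨y, ⟨h8, h9⟩, h10⟩ := Ultrafilter.nonempty_of_mem (Filter.inter_mem h3 (hf k))
    refine (hv y h8).2.2 ⟨k, h10, ?_⟩
    rw [h4 y h9]
    rwa [h4 x h6] at h7
  have hS : {x : {x : Set I // Cardinal.mk x < κ} | ∀ s : Set I, (∀ i ∈ s, e i ∈ B) →
      ∃ k ∈ x.1, ∀ i ∈ x.1, e i ∈ e k ↔ i ∈ s} ∈ U := by
    by_contra h1
    have h2 := Ultrafilter.compl_mem_iff_notMem.2 h1
    have h0 : ∀ x : {x : Set I // Cardinal.mk x < κ}, ∃ s : Set I,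
        x ∈ {x : {x : Set I // Cardinal.mk x < κ} | ∀ s : Set I, (∀ i ∈ s, e i ∈ B) →
          ∃ k ∈ x.1, ∀ i ∈ x.1, e i ∈ e k ↔ i ∈ s}ᶜ →
        (∀ i ∈ s, e i ∈ B) ∧ ∀ k ∈ x.1, ∃ i ∈ x.1, ¬ (e i ∈ e k ↔ i ∈ s) := by
      intro x
      by_contra h3
      simp only [not_exists, Classical.not_imp, not_and, not_forall, not_not] at h3
      refine (h3 ∅).1 fun s h4 => ?_
      obtain ⟨k, hk, h5⟩ := (h3 s).2 h4
      exact ⟨k, hk, h5⟩
    choose s hs using h0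
    obtain ⟨k, hk⟩ := he (ZFSet.sep (fun b => ∃ i, e i = b ∧ {x | i ∈ s x} ∈ U) B)
      (hBY _ sep_subset)
    obtain ⟨i, hi⟩ := normal' hn (fun x i => ¬ (e i ∈ e k ↔ i ∈ s x))
      (Filter.mem_of_superset (Filter.inter_mem h2 (hf k)) fun x hx => (hs x hx.1).2 k hx.2)
    by_cases h3 : {x | i ∈ s x} ∈ U
    · obtain ⟨x, h4, h5, h6⟩ := Ultrafilter.nonempty_of_mem
        (Filter.inter_mem h2 (Filter.inter_mem hi h3))
      refine h5 ⟨fun _ => h6, fun _ => ?_⟩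
      rw [hk, mem_sep]
      exact ⟨(hs x h4).1 i h6, i, rfl, h3⟩
    · obtain ⟨x, h5, h6⟩ := Ultrafilter.nonempty_of_mem
        (Filter.inter_mem hi (Ultrafilter.compl_mem_iff_notMem.2 h3))
      refine h5 ⟨fun h7 => ?_, fun h => absurd h h6⟩
      rw [hk, mem_sep] at h7
      obtain ⟨-, i', h8, h9⟩ := h7
      rw [einj h8] at h9
      exact absurd h9 h3
  obtain ⟨k, hk⟩ := he B (hBY B fun _ h => h)
  obtain ⟨x, h1, h2, h3⟩ := Ultrafilter.nonempty_of_mem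
    (Filter.inter_mem (hf k) (Filter.inter_mem hT hS))
  exact ⟨x.1, x.2, ⟨k, h1, hk⟩, h2, h3⟩

/-- Magidor's small embeddings below a supercompact cardinal -/
theorem magidor {κ : Cardinal.{u}} (hκ : Supercompact κ) {τ : Ordinal.{u}} (hτ : IsSuccLimit τ)
    (hκτ : κ.ord ≤ τ) : ∃ α < κ.ord, IsSuccLimit α ∧ ∃ j : V.{u} → V.{u},
      Elem (vonNeumann (α + 1) : Set V.{u}) (vonNeumann (τ + 1) : Set V.{u}) j ∧
      j (vonNeumann α) = vonNeumann τ := by
  classical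
  set Y := vonNeumann (τ + 1) with hY
  set B := vonNeumann τ with hB
  have hYB : ∀ z, z ∈ Y ↔ z ⊆ B := fun z => by rw [hY, vonNeumann_add_one, mem_powerset]
  have hYt : Tr (Y : Set V.{u}) := tr_vn _
  let e : Shrink.{u} Y → V.{u} := fun i => ((equivShrink Y).symm i).1
  have heY : ∀ i, e i ∈ Y := fun i => ((equivShrink Y).symm i).2
  have einj : Function.Injective e := Subtype.val_injective.comp (equivShrink Y).symm.injective
  have he : ∀ z ∈ Y, ∃ i, e i = z := fun z hz => ⟨equivShrink Y ⟨z, hz⟩, by simp [e]⟩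
  have : Nonempty (Shrink.{u} Y) := ⟨(he B ((hYB B).2 fun _ h => h)).choose⟩
  obtain ⟨x, hx, ⟨kB, hkx, hkB⟩, hT, hS⟩ := exists_hull hκ (I := Shrink.{u} Y) (by
    change κ ≤ card Y
    refine le_trans ?_ (Ordinal.card_le_card_vonNeumann _)
    exact Cardinal.ord_le.1 (hκτ.trans le_self_add)) e he einj fun z hz => (hYB z).2 hz
  have hE : WellFounded fun s t : x => e s.1 ∈ e t.1 := InvImage.wf (fun s : x => e s.1) mem_wf
  have hext : ∀ s t : x, (∀ w : x, e w.1 ∈ e s.1 ↔ e w.1 ∈ e t.1) → s = t := by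
    intro s t h
    by_contra hne
    have h1 : e s.1 ≠ e t.1 := fun h => hne (Subtype.ext (einj h))
    obtain ⟨z, hz⟩ := not_forall.1 fun h => h1 (ZFSet.ext h)
    have hzY : z ∈ Y := by
      by_cases h1 : z ∈ e s.1
      · exact hYt _ (heY _) _ h1
      · exact hYt _ (heY t.1) _ (by tauto)
    obtain ⟨i, hi, h2⟩ := hT (.neg (.and (.neg (.and (.mem 0 1) (.neg (.mem 0 2))))
      (.neg (.and (.mem 0 2) (.neg (.mem 0 1)))))) (sc s.1 fun _ => t.1)
      (fun n => by cases n; exacts [s.2, t.2])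
      ⟨z, hzY, by simp only [Sat, cons, sc]; tauto⟩
    have := h ⟨i, hi⟩
    simp only [Sat, cons, sc] at h2 this
    tauto
  let c : x → V.{u} := col hE
  have ceq : ∀ s t, c s = c t ↔ s = t :=
    col_eq_iff hE (r := Eq) (fun _ _ _ h h' => h ▸ h') (fun _ _ _ h h' => h ▸ h')
      (fun _ _ => Eq.symm) hext
  have cmem : ∀ s t, c s ∈ c t ↔ e s.1 ∈ e t.1 :=
    col_mem_iff hE (r := Eq) (fun _ _ _ h h' => h ▸ h') (fun _ _ _ h h' => h ▸ h')
      (fun _ _ => Eq.symm) hext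
  let j : V.{u} → V.{u} := fun z => if h : ∃ s, c s = z then e h.choose.1 else ∅
  have hj : ∀ s, j (c s) = e s.1 := fun s => by
    have h : ∃ s', c s' = c s := ⟨s, rfl⟩
    simp only [j, dif_pos h]
    rw [(ceq _ _).1 h.choose_spec]
  set X := range c with hX
  have hXt : Tr (X : Set V.{u}) := tr_coe.2 (col_range_trans hE)
  have key : ∀ (φ : Fm) (v : ℕ → x), Sat (X : Set V.{u}) φ (fun n => c (v n)) ↔
      Sat (Y : Set V.{u}) φ fun n => e (v n).1 := by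
    intro φ
    induction φ with
    | mem a b => intro v; exact cmem _ _
    | eq a b =>
      intro v
      exact (ceq _ _).trans ⟨fun h => congrArg (fun s : x => e s.1) h,
        fun h => Subtype.ext (einj h)⟩
    | neg φ ih => intro v; exact not_congr (ih v)
    | and φ ψ ih ih' => intro v; exact and_congr (ih v) (ih' v)
    | ex φ ih =>
      intro v
      simp only [Sat]
      constructor
      · rintro ⟨z, hz, h⟩
        obtain ⟨s, rfl⟩ := mem_range.1 hz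
        rw [← cons_comp c, ih, cons_comp fun s : x => e s.1] at h
        exact ⟨_, heY _, h⟩
      · intro h
        obtain ⟨i, hi, h⟩ := hT φ (fun n => (v n).1) (fun n => (v n).2) h
        refine ⟨c ⟨i, hi⟩, mem_range_self _, ?_⟩
        rw [← cons_comp c, ih, cons_comp fun s : x => e s.1]
        exact h
  have hel : Elem (X : Set V.{u}) (Y : Set V.{u}) j := by
    refine ⟨fun z hz => ?_, fun φ v hv => ?_⟩
    · obtain ⟨s, rfl⟩ := mem_range.1 hz
      rw [hj]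
      exact heY _
    · choose s hs using fun n => mem_range.1 (hv n)
      obtain rfl : v = fun n => c (s n) := funext fun n => (hs n).symm
      simp only [hj]
      exact key φ s
  set A := c ⟨kB, hkx⟩ with hA
  have hAX : A ∈ (X : Set V.{u}) := mem_range_self _
  have hjA : j A = B := (hj _).trans hkB
  have hXA : ∀ z, z ∈ X ↔ z ⊆ A := by
    intro z
    constructor
    · intro hz w hw
      obtain ⟨s, rfl⟩ := mem_range.1 hz
      obtain ⟨t, ht, rfl⟩ := (mem_col hE).1 hw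
      exact (cmem t ⟨kB, hkx⟩).2 (hkB ▸ (hYB _).1 (heY s.1) ht)
    · intro hz
      obtain ⟨k, hk, h⟩ := hS {i | ∃ h : i ∈ x, c ⟨i, h⟩ ∈ z} (by
        rintro i ⟨hi, h⟩
        exact hkB ▸ (cmem ⟨i, hi⟩ ⟨kB, hkx⟩).1 (hz h))
      refine mem_range.2 ⟨⟨k, hk⟩, ZFSet.ext fun w => ⟨fun hw => ?_, fun hw => ?_⟩⟩
      · obtain ⟨t, ht, rfl⟩ := (mem_col hE).1 hw
        exact ((h t.1 t.2).1 ht).2
      · obtain ⟨t, -, rfl⟩ := (mem_col hE).1 (hz hw)
        exact (cmem t ⟨k, hk⟩).2 ((h t.1 t.2).2 ⟨t.2, hw⟩)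
  have hAt : A.IsTransitive :=
    (hel.tf1 hXt hYt (P := fun _ a => a.IsTransitive) (D.trans 0) hAX).2
      (hjA ▸ isTransitive_vonNeumann τ)
  have hlev : ∀ a ∈ A, ∃ s ∈ A, LevIn (X : Set V.{u}) s ∧ a ∈ s := by
    refine (hel.tf1 hXt hYt (P := fun M A => ∀ a ∈ A, ∃ s ∈ A, LevIn M s ∧ a ∈ s) ?_ hAX).2 ?_
    · repeat' first
        | exact D.lev _ | exact D.mem _ _ | apply D.and | apply D.bex | apply D.ball
    · rw [hjA]
      intro a ha
      have h1 := hτ.isSuccPrelimit.add_one_lt (mem_vonNeumann.1 ha)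
      exact ⟨vonNeumann (rank a + 1), vonNeumann_mem_of_lt h1,
        levIn_vn (vn_sub (by gcongr)), mem_vonNeumann.2 (lt_add_one _)⟩
  have hAv : A = vonNeumann (rank A) := by
    have h1 : ∀ γ ≤ rank A, vonNeumann γ ⊆ A := by
      intro γ
      induction γ using WellFoundedLT.induction with
      | _ γ ih =>
      intro hγ z hz
      obtain ⟨γ', h1, h2⟩ := mem_vonNeumann'.1 hz
      have h3 : z ∈ X := (hXA z).2 fun w hw => ih γ' h1 (h1.le.trans hγ) (h2 hw)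
      obtain ⟨a, ha, h4⟩ := lt_rank_iff.1 ((mem_vonNeumann.1 hz).trans_le hγ)
      obtain ⟨s, hs, h5, h6⟩ := hlev a ha
      obtain ⟨δ, hδ⟩ := h5.spec hXt (hXt _ hAX _ hs)
      exact hAt _ hs ((hδ z).2 ⟨h3, mem_vonNeumann.2
        (h4.trans_lt (mem_vonNeumann.1 ((hδ a).1 h6).2))⟩)
    exact ZFSet.ext fun z => ⟨fun h => subset_vonNeumann_self A h, fun h => h1 _ le_rfl h⟩
  have hXv : X = vonNeumann (rank A + 1) := by
    ext z
    rw [hXA, vonNeumann_add_one, mem_powerset, ← hAv]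
  refine ⟨rank A, ?_, ?_, j, hXv ▸ hel, hAv ▸ hjA⟩
  · rw [Cardinal.lt_ord]
    refine ((rank_card_le hAt).trans ((card_mono fun z hz => hXt _ hAX _ hz).trans ?_)).trans_lt hx
    simpa using lift_card_range_le (f := c)
  · rw [← lim_vn, ← hAv]
    exact (hel.tf1 hXt hYt (P := fun _ a => Lim a) (D.lim 0) hAX).2 (hjA ▸ lim_vn.2 hτ)

end Pool.Agent.H697Z.Gss
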