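import Pool.Agent.H697Z.GssLev

set_option autoImplicit false

universe u w

namespace Pool.Agent.H697Z.Gss

open ZFSet Order

section Mostowski
variable {T : Type w} [Small.{u} T] {E : T → T → Prop}

/-- the Mostowski collapse of a well-founded relation -/
noncomputable def col (hE : WellFounded E) : T → V.{u} :=
  hE.fix fun t ih => range fun s : {s // E s t} => ih s.1 s.2

theorem mem_col (hE : WellFounded E) {z : V.{u}} {t : T} :
    z ∈ col hE t ↔ ∃ s, E s t ∧ col hE s = z := by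
  rw [col, hE.fix_eq, mem_range]
  exact ⟨fun ⟨s, h⟩ => ⟨s.1, s.2, h⟩, fun ⟨s, h1, h2⟩ => ⟨⟨s, h1⟩, h2⟩⟩

theorem col_eq_iff (hE : WellFounded E) {r : T → T → Prop}
    (c1 : ∀ s s' t, r s s' → E s t → E s' t) (c2 : ∀ s t t', r t t' → E s t → E s t')
    (sym : ∀ s t, r s t → r t s) (ext : ∀ s t, (∀ w, E w s ↔ E w t) → r s t) (s : T) :
    ∀ t, col hE s = col hE t ↔ r s t := by
  induction s using hE.induction with
  | _ s ih =>
  intro t
  constructor
  · intro e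
    refine ext s t fun w => ⟨fun hw => ?_, fun hw => ?_⟩
    · obtain ⟨w', h1, h2⟩ := (mem_col hE).1 (e ▸ (mem_col hE).2 ⟨w, hw, rfl⟩)
      exact c1 _ _ _ (sym _ _ ((ih w hw w').1 h2.symm)) h1
    · obtain ⟨w', h1, h2⟩ := (mem_col hE).1 (e.symm ▸ (mem_col hE).2 ⟨w, hw, rfl⟩)
      exact c1 _ _ _ ((ih w' h1 w).1 h2) h1
  · intro h
    ext z
    rw [mem_col, mem_col]
    exact exists_congr fun w => and_congr_left fun _ => ⟨c2 _ _ _ h, c2 _ _ _ (sym _ _ h)⟩

theorem col_mem_iff (hE : WellFounded E) {r : T → T → Prop}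
    (c1 : ∀ s s' t, r s s' → E s t → E s' t) (c2 : ∀ s t t', r t t' → E s t → E s t')
    (sym : ∀ s t, r s t → r t s) (ext : ∀ s t, (∀ w, E w s ↔ E w t) → r s t) (s t : T) :
    col hE s ∈ col hE t ↔ E s t := by
  rw [mem_col]
  exact ⟨fun ⟨w, h1, h2⟩ => c1 _ _ _ ((col_eq_iff hE c1 c2 sym ext w s).1 h2) h1,
    fun h => ⟨s, h, rfl⟩⟩

theorem col_range_trans (hE : WellFounded E) : (range (col hE)).IsTransitive := by
  intro x hx z hz
  obtain ⟨t, rfl⟩ := mem_range.1 hx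
  obtain ⟨s, _, rfl⟩ := (mem_col hE).1 hz
  exact mem_range_self s

end Mostowski

/-- the data of an extender with index set `A` and set of seeds `B` -/
structure Ext (A B : V.{u}) : Type (u + 1) where
  U : B → Ultrafilter A
  st : (A → A) → B → B
  map : ∀ g b (S : Set A), S ∈ U (st g b) ↔ g ⁻¹' S ∈ U b
  comp : ∀ g h b, st (g ∘ h) b = st g (st h b)
  st_id : ∀ b, st id b = b
  eq : ∀ g h b, st g b = st h b ↔ {x | g x = h x} ∈ U b
  mem : ∀ g h b, (st g b).1 ∈ (st h b).1 ↔ {x | (g x).1 ∈ (h x).1} ∈ U b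
  pA : A → A → A
  pB : B → B → B
  p : A → A
  q : A → A
  p_pA : ∀ x y, p (pA x y) = x
  q_pA : ∀ x y, q (pA x y) = y
  p_pB : ∀ a b, st p (pB a b) = a
  q_pB : ∀ a b, st q (pB a b) = b
  wf : ∀ R : Set A, WellFounded (fun x y => pA x y ∈ R) → WellFounded fun a b => R ∈ U (pB a b)
  nat : ℕ → A
  nat_inj : Function.Injective nat

namespace Ext

variable {A B : V.{u}} (e : Ext A B) {N : V.{u}}

/-- a binary relation between two representatives -/
def Rel (r : V.{u} → V.{u} → Prop) (s t : B × (A → N)) : Prop :=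
  {z | r (s.2 (e.p z)).1 (t.2 (e.q z)).1} ∈ e.U (e.pB s.1 t.1)

theorem rel_iff (r : V.{u} → V.{u} → Prop) (s t : B × (A → N)) {c : B} {g h : A → A}
    (hg : e.st g c = s.1) (hh : e.st h c = t.1) :
    e.Rel r s t ↔ {z | r (s.2 (g z)).1 (t.2 (h z)).1} ∈ e.U c := by
  let d := e.pB (e.pB s.1 t.1) c
  have h1 : e.st e.p d = e.pB s.1 t.1 := e.p_pB _ _
  have h2 : e.st e.q d = c := e.q_pB _ _
  have h3 : {x | (e.p ∘ e.p) x = (g ∘ e.q) x} ∈ e.U d := by
    rw [← e.eq, e.comp, e.comp, h1, h2, e.p_pB, hg]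
  have h4 : {x | (e.q ∘ e.p) x = (h ∘ e.q) x} ∈ e.U d := by
    rw [← e.eq, e.comp, e.comp, h1, h2, e.q_pB, hh]
  rw [Rel, ← h1, e.map, ← h2, e.map]
  refine ⟨fun h5 => ?_, fun h5 => ?_⟩
  · refine Filter.mem_of_superset (Filter.inter_mem h5 (Filter.inter_mem h3 h4)) ?_
    rintro z ⟨a1, a2, a3⟩
    simp only [Set.mem_preimage, Set.mem_ofPred_eq, Function.comp] at a1 a2 a3 ⊢
    rwa [← a2, ← a3]
  · refine Filter.mem_of_superset (Filter.inter_mem h5 (Filter.inter_mem h3 h4)) ?_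
    rintro z ⟨a1, a2, a3⟩
    simp only [Set.mem_preimage, Set.mem_ofPred_eq, Function.comp] at a1 a2 a3 ⊢
    rwa [a2, a3]

theorem three (a b c : B) : ∃ (d : B) (g h k : A → A),
    e.st g d = a ∧ e.st h d = b ∧ e.st k d = c :=
  ⟨e.pB a (e.pB b c), e.p, e.p ∘ e.q, e.q ∘ e.q, e.p_pB _ _,
    by rw [e.comp, e.q_pB, e.p_pB], by rw [e.comp, e.q_pB, e.q_pB]⟩

theorem c1 (s s' t : B × (A → N)) (h : e.Rel (· = ·) s s') (h' : e.Rel (· ∈ ·) s t) :
    e.Rel (· ∈ ·) s' t := by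
  obtain ⟨d, g, g', k, h1, h2, h3⟩ := e.three s.1 s'.1 t.1
  rw [e.rel_iff _ _ _ h1 h2] at h
  rw [e.rel_iff _ _ _ h1 h3] at h'
  rw [e.rel_iff _ _ _ h2 h3]
  refine Filter.mem_of_superset (Filter.inter_mem h h') ?_
  rintro z ⟨a1, a2⟩
  simp only [Set.mem_ofPred_eq] at a1 a2 ⊢
  rwa [← a1]

theorem c2 (s t t' : B × (A → N)) (h : e.Rel (· = ·) t t') (h' : e.Rel (· ∈ ·) s t) :
    e.Rel (· ∈ ·) s t' := by
  obtain ⟨d, g, k, k', h1, h2, h3⟩ := e.three s.1 t.1 t'.1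
  rw [e.rel_iff _ _ _ h2 h3] at h
  rw [e.rel_iff _ _ _ h1 h2] at h'
  rw [e.rel_iff _ _ _ h1 h3]
  refine Filter.mem_of_superset (Filter.inter_mem h h') ?_
  rintro z ⟨a1, a2⟩
  simp only [Set.mem_ofPred_eq] at a1 a2 ⊢
  rwa [← a1]

theorem sym (s t : B × (A → N)) (h : e.Rel (· = ·) s t) : e.Rel (· = ·) t s := by
  rw [e.rel_iff _ _ _ (e.q_pB s.1 t.1) (e.p_pB s.1 t.1)]
  refine Filter.mem_of_superset h fun z hz => ?_
  exact Eq.symm hz

theorem ext (hN : N.IsTransitive) (s t : B × (A → N))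
    (h : ∀ w, e.Rel (· ∈ ·) w s ↔ e.Rel (· ∈ ·) w t) : e.Rel (· = ·) s t := by
  by_contra hc
  have h0 : ∀ z : A, ∃ w : N, (s.2 (e.p z)).1 ≠ (t.2 (e.q z)).1 →
      ¬ (w.1 ∈ (s.2 (e.p z)).1 ↔ w.1 ∈ (t.2 (e.q z)).1) := by
    intro z
    by_cases hz : (s.2 (e.p z)).1 = (t.2 (e.q z)).1
    · exact ⟨s.2 z, fun h => absurd hz h⟩
    · obtain ⟨w, hw⟩ := not_forall.1 fun h => hz (ZFSet.ext h)
      have : w ∈ N := by
        by_cases h1 : w ∈ (s.2 (e.p z)).1
        · exact hN _ (s.2 (e.p z)).2 h1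
        · exact hN _ (t.2 (e.q z)).2 (by tauto)
      exact ⟨⟨w, this⟩, fun _ => hw⟩
  choose w hw using h0
  have h1 := h (e.pB s.1 t.1, w)
  rw [e.rel_iff _ (e.pB s.1 t.1, w) s (e.st_id _) (e.p_pB s.1 t.1),
    e.rel_iff _ (e.pB s.1 t.1, w) t (e.st_id _) (e.q_pB s.1 t.1)] at h1
  have h2 := Ultrafilter.compl_mem_iff_notMem.2 hc
  by_cases h3 : {z | (w z).1 ∈ (s.2 (e.p z)).1} ∈ e.U (e.pB s.1 t.1)
  · obtain ⟨z, a1, a2, a3⟩ := Ultrafilter.nonempty_of_mem
      (Filter.inter_mem h2 (Filter.inter_mem h3 (h1.1 h3)))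
    exact hw z a1 ⟨fun _ => a3, fun _ => a2⟩
  · obtain ⟨z, a1, a2, a3⟩ := Ultrafilter.nonempty_of_mem
      (Filter.inter_mem h2 (Filter.inter_mem (Ultrafilter.compl_mem_iff_notMem.2 h3)
        (Ultrafilter.compl_mem_iff_notMem.2 (mt h1.2 h3))))
    exact hw z a1 ⟨fun h => absurd h a2, fun h => absurd h a3⟩

theorem wfE (N : V.{u}) : WellFounded (e.Rel (N := N) (· ∈ ·)) := by
  rw [wellFounded_iff_isEmpty_descending_chain]
  refine ⟨fun ⟨s, hs⟩ => ?_⟩
  let t : ℕ → A → A := fun n x => e.pA (e.nat n) x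
  let f : A → N := fun z => (s (Function.invFun e.nat (e.p z))).2 (e.q z)
  have hf : ∀ n x, f (t n x) = (s n).2 x := fun n x => by
    simp only [f, t, e.p_pA, e.q_pA, Function.leftInverse_invFun e.nat_inj n]
  have h1 := e.wf {z | (f (e.p z)).1 ∈ (f (e.q z)).1} (by
    simp only [Set.mem_ofPred_eq, e.p_pA, e.q_pA]
    exact InvImage.wf (fun x => (f x).1) mem_wf)
  refine (wellFounded_iff_isEmpty_descending_chain.1 h1).false
    ⟨fun n => e.st (t n) (s n).1, fun n => ?_⟩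
  have h2 := e.rel_iff (· ∈ ·) (e.st (t (n + 1)) (s (n + 1)).1, f) (e.st (t n) (s n).1, f)
    (c := e.pB (s (n + 1)).1 (s n).1) (g := t (n + 1) ∘ e.p) (h := t n ∘ e.q)
    (by rw [e.comp, e.p_pB]) (by rw [e.comp, e.q_pB])
  refine h2.2 ?_
  simp only [Function.comp, hf]
  exact hs n

/-- the collapse of the ultrapower -/
noncomputable def pi (N : V.{u}) : B × (A → N) → V.{u} := col (e.wfE N)

theorem pi_mem (hN : N.IsTransitive) (s t : B × (A → N)) :
    e.pi N s ∈ e.pi N t ↔ e.Rel (· ∈ ·) s t :=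
  col_mem_iff (e.wfE N) e.c1 e.c2 e.sym (e.ext hN) s t

theorem pi_eq (hN : N.IsTransitive) (s t : B × (A → N)) :
    e.pi N s = e.pi N t ↔ e.Rel (· = ·) s t :=
  col_eq_iff (e.wfE N) e.c1 e.c2 e.sym (e.ext hN) s t

theorem los (hN : N.IsTransitive) (φ : Fm) : ∀ (s : ℕ → B × (A → N)) (c : B) (g : ℕ → A → A),
    (∀ i, e.st (g i) c = (s i).1) →
    (Sat (range (e.pi N) : Set V.{u}) φ (fun i => e.pi N (s i)) ↔
      {z | Sat (N : Set V.{u}) φ fun i => ((s i).2 (g i z)).1} ∈ e.U c) := by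
  induction φ with
  | mem i j => intro s c g h; exact (e.pi_mem hN _ _).trans (e.rel_iff _ _ _ (h i) (h j))
  | eq i j => intro s c g h; exact (e.pi_eq hN _ _).trans (e.rel_iff _ _ _ (h i) (h j))
  | neg φ ih =>
    intro s c g h
    simp only [Sat]
    rw [ih s c g h, ← Ultrafilter.compl_mem_iff_notMem]
    rfl
  | and φ ψ ih ih' =>
    intro s c g h
    simp only [Sat]
    rw [ih s c g h, ih' s c g h]
    exact Filter.inter_mem_iff.symm
  | ex φ ih =>
    intro s c g h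
    simp only [Sat]
    constructor
    · rintro ⟨z, hz, h1⟩
      obtain ⟨t, rfl⟩ := mem_range.1 hz
      rw [← cons_comp (e.pi N), ih (sc t s) (e.pB c t.1) (sc e.q fun i => g i ∘ e.p) (fun i => by
        cases i with
        | zero => exact e.q_pB _ _
        | succ i => simp only [sc_succ]; rw [e.comp, e.p_pB, h])] at h1
      rw [← e.p_pB c t.1, e.map]
      refine Filter.mem_of_superset h1 fun x hx => ⟨(t.2 (e.q x)).1, (t.2 (e.q x)).2, ?_⟩
      convert hx using 1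
      simp only [Set.mem_ofPred_eq]
      congr! 1
      funext i
      cases i <;> rfl
    · intro h1
      have h0 : ∀ x : A, ∃ w : N, (∃ z ∈ (N : Set V.{u}), Sat (N : Set V.{u}) φ
          (cons z fun i => ((s i).2 (g i x)).1)) →
          Sat (N : Set V.{u}) φ (cons w.1 fun i => ((s i).2 (g i x)).1) := by
        intro x
        by_cases hx : ∃ z ∈ (N : Set V.{u}), Sat (N : Set V.{u}) φ
          (cons z fun i => ((s i).2 (g i x)).1)
        · obtain ⟨z, hz, hz'⟩ := hx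
          exact ⟨⟨z, hz⟩, fun _ => hz'⟩
        · exact ⟨(s 0).2 x, fun h => absurd h hx⟩
      choose w hw using h0
      refine ⟨e.pi N (c, w), mem_range_self _, ?_⟩
      rw [← cons_comp (e.pi N), ih (sc (c, w) s) c (sc id g) (fun i => by
        cases i with
        | zero => exact e.st_id _
        | succ i => exact h i)]
      refine Filter.mem_of_superset h1 fun x hx => ?_
      have := hw x hx
      simp only [Set.mem_ofPred_eq]
      convert this using 1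
      funext i
      cases i <;> rfl

theorem pi_st (hN : N.IsTransitive) (hA : A ⊆ N) (t : B × (A → N))
    (ht : {z | (t.2 z).1 ∈ A} ∈ e.U t.1) :
    ∃ g : A → A, {z | (g z).1 = (t.2 z).1} ∈ e.U t.1 ∧
      e.pi N t = e.pi N (e.st g t.1, fun x => ⟨x.1, hA x.2⟩) := by
  classical
  let g : A → A := fun z => if h : (t.2 z).1 ∈ A then ⟨_, h⟩ else z
  have hg : {z | (g z).1 = (t.2 z).1} ∈ e.U t.1 :=
    Filter.mem_of_superset ht fun z hz => by
      simp only [Set.mem_ofPred_eq] at hz ⊢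
      simp only [g, dif_pos hz]
  refine ⟨g, hg, ?_⟩
  rw [e.pi_eq hN, e.rel_iff _ t (e.st g t.1, fun x => ⟨x.1, hA x.2⟩) (e.st_id _) rfl]
  exact Filter.mem_of_superset hg fun z hz => Eq.symm hz

theorem rel_incl (hA : A ⊆ N) (a b : B) :
    e.Rel (N := N) (· ∈ ·) (a, fun x => ⟨x.1, hA x.2⟩) (b, fun x => ⟨x.1, hA x.2⟩) ↔
      a.1 ∈ b.1 := by
  rw [Rel, ← e.mem, e.p_pB, e.q_pB]

theorem pi_incl (hN : N.IsTransitive) (hA : A ⊆ N) (hAt : A.IsTransitive) (hB : B.IsTransitive)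
    (b : V.{u}) : ∀ hb : b ∈ B, e.pi N (⟨b, hb⟩, fun x => ⟨x.1, hA x.2⟩) = b := by
  induction b using ZFSet.inductionOn with
  | _ b ih =>
  intro hb
  ext z
  constructor
  · intro hz
    obtain ⟨t, h1, rfl⟩ := (mem_col (e.wfE N)).1 hz
    have h2 : {z | (t.2 z).1 ∈ A} ∈ e.U t.1 := by
      rw [← e.p_pB t.1 ⟨b, hb⟩, e.map]
      exact Filter.mem_of_superset h1 fun z hz => hAt _ (e.q z).2 hz
    obtain ⟨g, -, h3⟩ := e.pi_st hN hA t h2
    have h4 : (e.st g t.1).1 ∈ b := by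
      rw [← e.rel_incl hA (e.st g t.1) ⟨b, hb⟩, ← e.pi_mem hN, ← h3, e.pi_mem hN]
      exact h1
    have h5 := ih _ h4 (e.st g t.1).2
    change e.pi N t ∈ b
    rw [h3, h5]
    exact h4
  · intro hz
    have h1 := ih z hz (hB _ hb hz)
    rw [← h1, e.pi_mem hN]
    exact (e.rel_incl hA ⟨z, hB _ hb hz⟩ ⟨b, hb⟩).2 hz

include e in
theorem ult (hN : N.IsTransitive) (hA : A ∈ N) (hAt : A.IsTransitive) (hB : B.IsTransitive)
    (b0 : B) : ∃ (M : V.{u}) (j : V.{u} → V.{u}), M.IsTransitive ∧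
      Elem (N : Set V.{u}) (M : Set V.{u}) j ∧ j A = B ∧ B ⊆ M ∧
      card M ≤ card B * card N ^ card A := by
  classical
  let k : V.{u} → N := fun y => if h : y ∈ N then ⟨y, h⟩ else ⟨A, hA⟩
  have hk : ∀ y ∈ N, (k y).1 = y := fun y hy => by simp only [k, dif_pos hy]
  have hA' : A ⊆ N := hN _ hA
  refine ⟨range (e.pi N), fun y => e.pi N (b0, fun _ => k y), col_range_trans _,
    ⟨fun x _ => mem_range_self _, fun φ v hv => ?_⟩, ?_, fun b hb => ?_, ?_⟩
  · rw [e.los hN φ (fun i => (b0, fun _ => k (v i))) b0 (fun _ => id) fun _ => e.st_id _]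
    have : (fun i => (k (v i)).1) = v := funext fun i => hk _ (hv i)
    simp only [this]
    by_cases h : Sat (N : Set V.{u}) φ v
    · simp only [h, true_iff]
      exact Filter.univ_mem
    · simp [h]
  · ext z
    constructor
    · intro hz
      obtain ⟨t, h1, rfl⟩ := (mem_col (e.wfE N)).1 hz
      have h2 : {z | (t.2 z).1 ∈ A} ∈ e.U t.1 := by
        rw [← e.p_pB t.1 b0, e.map]
        refine Filter.mem_of_superset h1 fun z hz => ?_
        have h5 : (t.2 (e.p z)).1 ∈ (k A).1 := hz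
        rw [hk A hA] at h5
        exact h5
      obtain ⟨g, -, h3⟩ := e.pi_st hN hA' t h2
      change e.pi N t ∈ B
      rw [h3, e.pi_incl hN hA' hAt hB _ (e.st g t.1).2]
      exact (e.st g t.1).2
    · intro hz
      rw [← e.pi_incl hN hA' hAt hB z hz, e.pi_mem hN]
      refine Filter.mem_of_superset Filter.univ_mem fun x _ => ?_
      simp only [Set.mem_ofPred_eq, hk A hA]
      exact (e.p x).2
  · exact mem_range.2 ⟨_, e.pi_incl hN hA' hAt hB b hb⟩
  · have := lift_card_range_le (f := e.pi N)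
    rw [Cardinal.lift_id'.{u, u + 1}] at this
    rw [← Cardinal.lift_le.{u + 1}]
    refine this.trans ?_
    simp only [Cardinal.mk_prod, Cardinal.mk_pi, Cardinal.prod_const, cardinalMk_coe_sort,
      Cardinal.lift_id, Cardinal.lift_mul, Cardinal.lift_power, le_refl]

end Ext

end Pool.Agent.H697Z.Gss
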